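import Pool.Agent.helper34.P2.AREb

/-! # Row p2:ARE -/

set_option autoImplicit false

open scoped ContDiff Topology
open MeasureTheory Filter Set Metric MvPolynomial Pool.Agent.helper37.QA

namespace Pool.Agent.P2A

open Pool.Agent.P2

theorem ARE_ed_cont {d : ℕ} {f : Endo 2 d} {U : Set (PP 2)} (hG : Good0 f U) (N : ℕ) {Ψ : E3 → ℝ} {B : ℝ}
    (hA : Adm f U N Ψ B) (hd : d ≠ 0) : ContinuousOn (fun Z => ed f N Ψ Z) (cone U) := by
  have h := MAN_en_cont hG N hA hd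
  unfold ed
  refine ((((h _ _).add (h _ _)).add (h _ _)).div MAN_nq_cont.continuousOn fun Z hZ => ?_)
  obtain ⟨h, -⟩ := hZ
  exact (MAN_nq_pos h).ne'

/-- the part of the chart over the disc of radius `3` -/
def ARE_S (V : Set (PP 2)) (ι : Fin 2) : Set (ℂ × ℂ) := {p | ‖p.1‖ ≤ 3 ∧ cht ι p.1 p.2 ∈ cone V}

theorem ARE_S_meas {V : Set (PP 2)} (hV : IsOpen V) (ι : Fin 2) : MeasurableSet (ARE_S V ι) := by
  have h1 : MeasurableSet {p : ℂ × ℂ | ‖p.1‖ ≤ 3} := measurableSet_le (by fun_prop) (by fun_prop)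
  have h2 : MeasurableSet {p : ℂ × ℂ | cht ι p.1 p.2 ∈ cone V} := ((cone_open hV).preimage (ARE_cont ι)).measurableSet
  exact h1.inter h2

/-- the density, cut off -/
noncomputable def ARE_H {d : ℕ} (f : Endo 2 d) (j N : ℕ) (V : Set (PP 2)) (ι : Fin 2) : ℂ × ℂ → ENNReal :=
  (ARE_S V ι).indicator fun p => ENNReal.ofReal (ed f N (psj f j N) (cht ι p.1 p.2))

theorem ARE_H_meas {d : ℕ} {f : Endo 2 d} {U V : Set (PP 2)} (hG : Good0 f U) {j N : ℕ} {B : ℝ}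
    (hA : Adm f U N (psj f j N) B) (hd : d ≠ 0) (hV : IsOpen V) (hVU : V ⊆ U) (ι : Fin 2) : Measurable (ARE_H f j N V ι) := by
  classical
  unfold ARE_H
  have hW : MeasurableSet {p : ℂ × ℂ | cht ι p.1 p.2 ∈ cone V} := ((cone_open hV).preimage (ARE_cont ι)).measurableSet
  have h1 : Measurable ({p : ℂ × ℂ | cht ι p.1 p.2 ∈ cone V}.indicator
      fun p => ENNReal.ofReal (ed f N (psj f j N) (cht ι p.1 p.2))) := by
    rw [← Set.piecewise_eq_indicator]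
    refine ContinuousOn.measurable_piecewise ?_ continuousOn_const hW
    refine ENNReal.continuous_ofReal.comp_continuousOn ?_
    refine (ARE_ed_cont hG N hA hd).comp (ARE_cont ι).continuousOn fun p hp => ?_
    obtain ⟨g1, g2⟩ := hp
    exact ⟨g1, hVU g2⟩
  have h2 := h1.indicator (measurableSet_le (f := fun p : ℂ × ℂ => ‖p.1‖) (g := fun _ => (3 : ℝ)) (by fun_prop) (by fun_prop))
  have h3 : (ARE_S V ι).indicator (fun p => ENNReal.ofReal (ed f N (psj f j N) (cht ι p.1 p.2))) =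
      {p : ℂ × ℂ | ‖p.1‖ ≤ 3}.indicator ({p : ℂ × ℂ | cht ι p.1 p.2 ∈ cone V}.indicator
      fun p => ENNReal.ofReal (ed f N (psj f j N) (cht ι p.1 p.2))) := by
    rw [Set.indicator_indicator]
    rfl
  rw [h3]
  exact h2

theorem ARE_eta (z : ℂ) : 0 ≤ eta z ^ 2 ∧ eta z ^ 2 ≤ 1 ∧ (z ∉ ball (0 : ℂ) 1 → eta z = 0) := by
  have h0 : 0 ≤ eta z := Real.smoothTransition.nonneg _
  have h1 : eta z ≤ 1 := Real.smoothTransition.le_one _
  refine ⟨by positivity, by nlinarith, fun h => ?_⟩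
  unfold eta
  apply Real.smoothTransition.zero_of_nonpos
  rw [mem_ball_zero_iff, not_lt] at h
  rw [Complex.normSq_eq_norm_sq]
  nlinarith

/-- the bound of `QA` by the mass in the chart -/
theorem ARE_QA (hMAU : MAU_stmt) (hCHN : CHN_stmt) (hENC : ENC_stmt) (hAPS : APS_stmt) {d : ℕ} {f : Endo 2 d}
    {U V : Set (PP 2)} (hd : 2 ≤ d) (hG : Good0 f U) (hV : IsOpen V) (hVU : V ⊆ U) {j N : ℕ} (hj : j ≤ N) {ι : Fin 2} {c : ℂ}
    {κ s : ℝ} {γ : ℂ → ℂ} (hc : ‖c‖ ≤ 2) (hκ : 0 < κ) (hκ1 : κ ≤ 1) (hs : 0 < s) (hγ : DifferentiableOn ℂ γ (ball 0 1))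
    (htube : ∀ ξ ∈ ball (0 : ℂ) 1, ∀ v ∈ ball (0 : ℂ) s, gp ι c κ γ (ξ, v) ∈ cone V) :
    ENNReal.ofReal (QA f j s N ι c κ γ) ≤
      ∫⁻ p in ARE_S V ι, ENNReal.ofReal (ed f N (psj f j N) (cht ι p.1 p.2)) := by
  obtain ⟨C, -, hadm, -, -⟩ := hAPS d f U hd hG
  have hA := hadm j N hj
  have hd0 : d ≠ 0 := by omega
  have hH := ARE_H_meas hG hA hd0 hV hVU ι
  have hcU : ∀ Z, Z ∈ cone V → Z ∈ cone U := fun Z hZ => by
    obtain ⟨g1, g2⟩ := hZ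
    exact ⟨g1, hVU g2⟩
  have htU : ∀ ξ ∈ ball (0 : ℂ) 1, ∀ v ∈ ball (0 : ℂ) s, gp ι c κ γ (ξ, v) ∈ cone U := fun ξ hξ v hv =>
    hcU _ (htube ξ hξ v hv)
  rw [← lintegral_indicator (ARE_S_meas hV ι)]
  refine le_trans ?_ (ARE_tonelli (ARE_H f j N V ι) hH hγ.continuousOn c hκ (s / 4))
  unfold QA
  refine (ARE_ofReal _ _).trans ?_
  refine setLIntegral_mono' measurableSet_ball fun v hv => ?_
  have hv' : v ∈ ball (0 : ℂ) s := by
    rw [mem_ball_zero_iff] at hv ⊢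
    linarith
  refine (ARE_ofReal _ _).trans ?_
  rw [← lintegral_indicator measurableSet_ball]
  refine lintegral_mono fun ξ => ?_
  obtain ⟨e0, e1, e2⟩ := ARE_eta ξ
  by_cases hξ : ξ ∈ ball (0 : ℂ) 1
  · rw [indicator_of_mem hξ]
    have hpt := ARE_point hMAU hCHN hENC hAPS hd hG hj hγ htU hξ hv'
    simp only
    rw [hpt]
    have hpos : 0 ≤ ed f N (psj f j N) (gp ι c κ γ (ξ, v)) :=
      (hENC d f U N (psj f j N) C hd hG hA _ (htU ξ hξ v hv')).2.1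
    have hmem : (c + κ * ξ, γ ξ + v) ∈ ARE_S V ι := by
      refine ⟨?_, htube ξ hξ v hv'⟩
      show ‖c + κ * ξ‖ ≤ 3
      rw [mem_ball_zero_iff] at hξ
      have h1 : ‖(κ : ℂ) * ξ‖ ≤ 1 := by
        rw [norm_mul, Complex.norm_real, Real.norm_eq_abs, abs_of_pos hκ]
        nlinarith [norm_nonneg ξ]
      calc ‖c + κ * ξ‖ ≤ ‖c‖ + ‖(κ : ℂ) * ξ‖ := norm_add_le _ _
        _ ≤ 3 := by linarith
    have hHv : ARE_H f j N V ι (c + κ * ξ, γ ξ + v) = ENNReal.ofReal (ed f N (psj f j N) (gp ι c κ γ (ξ, v))) := by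
      unfold ARE_H
      rw [indicator_of_mem hmem]
      rfl
    rw [hHv, ← ENNReal.ofReal_mul (by positivity)]
    apply ENNReal.ofReal_le_ofReal
    have h2 : 0 ≤ κ ^ 2 * ed f N (psj f j N) (gp ι c κ γ (ξ, v)) := by positivity
    nlinarith
  · rw [indicator_of_notMem hξ]
    simp [e2 hξ]

/-- the mass in the chart is small -/
theorem ARE_small (hUN1 : UN1_stmt) (hAST : AST_stmt) {d : ℕ} {f : Endo 2 d} {U W V V' : Set (PP 2)} {C0 : ℝ} (hd : 2 ≤ d)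
    (hG : Good0 f U) (hW : IsOpen W) (hWU : W ⊆ U) (hVV : V ⊆ V') (hV' : IsClosed V') (hV'W : V' ⊆ W)
    (hint : ∀ n N : ℕ, n ≤ N → ∫⁻ Y in closedBall (0 : E3) 1 ∩ cone W, ENNReal.ofReal (eh f N (psn f n N) Y) ≤ ENNReal.ofReal C0)
    (ι : Fin 2) (ε : ℝ) (hε : 0 < ε) : ∃ nA : ℕ, ∀ j N : ℕ, nA ≤ j → j + nA ≤ N →
      ∫⁻ p in ARE_S V ι, ENNReal.ofReal (ed f N (psj f j N) (cht ι p.1 p.2)) ≤ ENNReal.ofReal ε := by
  classical
  obtain ⟨R, hR0, hR⟩ := ARE_bound d f U hUN1 hd hG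
  set C : Set (ℂ × ℂ) := (closedBall (0 : ℂ) 3 ×ˢ closedBall (0 : ℂ) R) ∩
    {p | toPP ⟨cht ι p.1 p.2, ARE_ne ι p.1 p.2⟩ ∈ V'} with hCdef
  have hCc : IsCompact C := by
    refine ((isCompact_closedBall _ _).prod (isCompact_closedBall _ _)).inter_right ?_
    have h1 : Continuous fun p : ℂ × ℂ =>
        (⟨cht ι p.1 p.2, ARE_ne ι p.1 p.2⟩ : {v : Fin (2 + 1) → ℂ // v ≠ 0}) :=
      (ARE_cont ι).subtype_mk _
    exact hV'.preimage (toPP_cont.comp h1)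
  have hWo : IsOpen {p : ℂ × ℂ | cht ι p.1 p.2 ∈ cone W} := (cone_open hW).preimage (ARE_cont ι)
  have hρ : ∀ p : ℂ × ℂ, ∃ ρ : ℝ, p ∈ C → 0 < ρ ∧ ball p ρ ⊆ {p : ℂ × ℂ | cht ι p.1 p.2 ∈ cone W} := by
    intro p
    by_cases hp : p ∈ C
    · obtain ⟨ρ, h1, h2⟩ := Metric.isOpen_iff.1 hWo p ⟨ARE_ne ι p.1 p.2, hV'W hp.2⟩
      exact ⟨ρ, fun _ => ⟨h1, h2⟩⟩
    · exact ⟨0, fun h => absurd h hp⟩
  choose ρ hρ using hρ
  obtain ⟨T, hT1, hT2⟩ := hCc.elim_nhds_subcover (fun p => ball p (ρ p / 2)) fun p hp =>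
    ball_mem_nhds p (by have := (hρ p hp).1; positivity)
  set ε' : ℝ := ε / (T.card + 1) with hε'
  have hε'0 : 0 < ε' := by positivity
  have hnA : ∀ p : ℂ × ℂ, ∃ nA : ℕ, p ∈ T → ∀ j N : ℕ, nA ≤ j → j + nA ≤ N →
      ∫⁻ q in ball p (ρ p / 2), ENNReal.ofReal (ed f N (psj f j N) (cht ι q.1 q.2)) ≤ ENNReal.ofReal ε' := by
    intro p
    by_cases hp : p ∈ T
    · obtain ⟨h1, h2⟩ := hρ p (hT1 p hp)
      obtain ⟨nA, hnA⟩ := hAST d f U W C0 hd hG hW hWU hint ι p.1 p.2 (ρ p) h1 (fun q hq => h2 hq) ε' hε'0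
      exact ⟨nA, fun _ => hnA⟩
    · exact ⟨0, fun h => absurd h hp⟩
  choose nA hnA using hnA
  refine ⟨T.sup nA, fun j N hj hN => ?_⟩
  have hsub : ARE_S V ι ⊆ ⋃ p ∈ T, ball p (ρ p / 2) := by
    rintro p ⟨h1, h2⟩
    apply hT2
    obtain ⟨g1, g2⟩ := h2
    refine ⟨⟨?_, ?_⟩, hVV g2⟩
    · rw [mem_closedBall_zero_iff]; exact h1
    · rw [mem_closedBall_zero_iff]
      exact hR ι p.1 p.2 h1 ⟨g1, hWU (hV'W (hVV g2))⟩
  refine (lintegral_mono_set hsub).trans ?_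
  refine (ARE_cover T (fun p => ball p (ρ p / 2)) (ENNReal.ofReal ε') fun p hp => ?_).trans ?_
  · have h3 : nA p ≤ T.sup nA := Finset.le_sup hp
    exact hnA p hp j N (by omega) (by omega)
  · rw [← ENNReal.ofReal_natCast, ← ENNReal.ofReal_mul (by positivity)]
    apply ENNReal.ofReal_le_ofReal
    rw [hε', mul_div_assoc', div_le_iff₀ (by positivity)]
    nlinarith

theorem ARE (hUN1 : UN1_stmt) (hMAU : MAU_stmt) (hCHN : CHN_stmt) (hENC : ENC_stmt) (hAPS : APS_stmt) (hAMB : AMB_stmt)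
    (hAST : AST_stmt) : ARE_stmt := by
  intro d f Us K hd hC
  obtain ⟨𝒱, C0, hVo, hKV, hVU, -, hint⟩ := hAMB d f Us K hd hC
  have hanti : ∀ n, Us (n + 1) ⊆ Us n := fun n => subset_closure.trans (hC.anti n)
  have hanti2 : Antitone Us := antitone_nat_of_succ_le hanti
  obtain ⟨i, hi⟩ : ∃ i : ℕ, closure (Us (i + 1)) ⊆ 𝒱 := by
    refine exists_subset_nhds_of_isCompact' (V := fun i : ℕ => closure (Us (i + 1))) ?_
      (fun i => isClosed_closure.isCompact) (fun i => isClosed_closure) ?_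
    · refine directed_of_isDirected_le ?_
      intro i j hij
      exact closure_mono (hanti2 (by omega))
    · intro x hx
      refine hVo.mem_nhds (hKV ?_)
      rw [hC.inter]
      rw [mem_iInter] at hx ⊢
      intro n
      exact hC.anti n (hx n)
  refine ⟨i + 1, fun ε hε => ?_⟩
  have hsm := fun ι => ARE_small hUN1 hAST hd hC.good hVo hVU (subset_closure (s := Us (i + 1))) isClosed_closure hi hint ι ε hε
  obtain ⟨n0, h0⟩ := hsm 0
  obtain ⟨n1, h1⟩ := hsm 1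
  refine ⟨max n0 n1, ?_⟩
  intro j N ι c κ s γ hj hN hc hκ hκ1 hs hγ htube
  have hq := ARE_QA hMAU hCHN hENC hAPS hd hC.good (hC.trap (i + 1)).1 (hanti2 (Nat.zero_le (i + 1))) (by omega : j ≤ N)
    hc hκ hκ1 hs hγ htube
  have hfin : ENNReal.ofReal (QA f j s N ι c κ γ) ≤ ENNReal.ofReal ε := by
    refine hq.trans ?_
    rcases Fin.exists_fin_two.1 ⟨ι, rfl⟩ with h | h
    · subst h
      exact h0 j N (by omega) (by omega)
    · subst h
      exact h1 j N (by omega) (by omega)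
  exact (ENNReal.ofReal_le_ofReal_iff hε.le).1 hfin

end Pool.Agent.P2A
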