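import Pool.Agent.helper15.P2.SpecA2
import Pool.Agent.helper75.P2.MAN_C

/-! # Row p2:ARE, part A: the pointwise identity -/

set_option autoImplicit false

open scoped ContDiff Topology
open MeasureTheory Filter Set Metric MvPolynomial Pool.Agent.helper37.QA

namespace Pool.Agent.P2A

open Pool.Agent.P2

theorem ARE_lap_add {f g : ℂ → ℝ} {z : ℂ} (hf : ContDiffAt ℝ 2 f z) (hg : ContDiffAt ℝ 2 g z) :
    lap (fun t => f t + g t) z = lap f z + lap g z := by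
  unfold lap
  have h := iteratedFDeriv_add_apply (𝕜 := ℝ) (i := 2) hf hg
  have h' : iteratedFDeriv ℝ 2 (fun t => f t + g t) z = iteratedFDeriv ℝ 2 f z + iteratedFDeriv ℝ 2 g z := h
  rw [h']
  simp only [add_apply]
  ring

theorem ARE_contline {f : ℂ × ℂ → ℝ} {p : ℂ × ℂ} (hf : ContDiffAt ℝ 2 f p) (a : ℂ × ℂ) :
    ContDiffAt ℝ 2 (fun t : ℂ => f (p + t • a)) 0 := by
  have h0 : ContDiffAt ℝ 2 f (p + (0 : ℂ) • a) := by rw [zero_smul, add_zero]; exact hf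
  have h1 : ContDiff ℝ 2 (fun t : ℂ => p + t • a) :=
    contDiff_const.add (ContinuousLinearMap.contDiff ((ContinuousLinearMap.toSpanSingleton ℂ a).restrictScalars ℝ))
  exact h0.comp (0 : ℂ) h1.contDiffAt

theorem ARE_lev_add {f g : ℂ × ℂ → ℝ} {p : ℂ × ℂ} (hf : ContDiffAt ℝ 2 f p) (hg : ContDiffAt ℝ 2 g p) (a : ℂ × ℂ) :
    lev (fun q => f q + g q) p a = lev f p a + lev g p a := by
  unfold lev
  exact ARE_lap_add (ARE_contline hf a) (ARE_contline hg a)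

theorem ARE_nq3 (v : E3) : nq v = Complex.normSq (v 0) + Complex.normSq (v 1) + Complex.normSq (v 2) := by
  unfold nq
  rw [Fin.sum_univ_three]

theorem ARE_normSq_cd : ContDiff ℝ 2 (Complex.normSq : ℂ → ℝ) := by
  have e : (Complex.normSq : ℂ → ℝ) = fun z => z.re * z.re + z.im * z.im := by
    ext z
    exact Complex.normSq_apply z
  rw [e]
  have h1 : ContDiff ℝ 2 (fun z : ℂ => z.re) := Complex.reCLM.contDiff
  have h2 : ContDiff ℝ 2 (fun z : ℂ => z.im) := Complex.imCLM.contDiff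
  exact (h1.mul h1).add (h2.mul h2)

/-- coordinates of the chart map -/
theorem ARE_cht (ι : Fin 2) (x y : ℂ) : cht ι x y 2 = y ∧ (ι = 0 → cht ι x y 0 = 1 ∧ cht ι x y 1 = x) ∧
    (ι ≠ 0 → cht ι x y 0 = x ∧ cht ι x y 1 = 1) := by
  unfold cht
  by_cases h : ι = 0
  · rw [if_pos h]
    exact ⟨rfl, fun _ => ⟨rfl, rfl⟩, fun h' => absurd h h'⟩
  · rw [if_neg h]
    exact ⟨rfl, fun h' => absurd h' h, fun _ => ⟨rfl, rfl⟩⟩

theorem ARE_cont (ι : Fin 2) : Continuous fun p : ℂ × ℂ => cht ι p.1 p.2 := by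
  obtain h | h : ι = 0 ∨ ι ≠ 0 := em _
  · refine continuous_pi fun i => ?_
    fin_cases i
    · have : (fun p : ℂ × ℂ => cht ι p.1 p.2 0) = fun _ => 1 := funext fun p => ((ARE_cht ι p.1 p.2).2.1 h).1
      show Continuous (fun p : ℂ × ℂ => cht ι p.1 p.2 0)
      rw [this]; exact continuous_const
    · have : (fun p : ℂ × ℂ => cht ι p.1 p.2 1) = fun p => p.1 := funext fun p => ((ARE_cht ι p.1 p.2).2.1 h).2
      show Continuous (fun p : ℂ × ℂ => cht ι p.1 p.2 1)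
      rw [this]; exact continuous_fst
    · have : (fun p : ℂ × ℂ => cht ι p.1 p.2 2) = fun p => p.2 := funext fun p => (ARE_cht ι p.1 p.2).1
      show Continuous (fun p : ℂ × ℂ => cht ι p.1 p.2 2)
      rw [this]; exact continuous_snd
  · refine continuous_pi fun i => ?_
    fin_cases i
    · have : (fun p : ℂ × ℂ => cht ι p.1 p.2 0) = fun p => p.1 := funext fun p => ((ARE_cht ι p.1 p.2).2.2 h).1
      show Continuous (fun p : ℂ × ℂ => cht ι p.1 p.2 0)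
      rw [this]; exact continuous_fst
    · have : (fun p : ℂ × ℂ => cht ι p.1 p.2 1) = fun _ => 1 := funext fun p => ((ARE_cht ι p.1 p.2).2.2 h).2
      show Continuous (fun p : ℂ × ℂ => cht ι p.1 p.2 1)
      rw [this]; exact continuous_const
    · have : (fun p : ℂ × ℂ => cht ι p.1 p.2 2) = fun p => p.2 := funext fun p => (ARE_cht ι p.1 p.2).1
      show Continuous (fun p : ℂ × ℂ => cht ι p.1 p.2 2)
      rw [this]; exact continuous_snd

/-- derivative of the tube map -/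
theorem ARE_deriv (ι : Fin 2) (c : ℂ) (κ : ℝ) (γ : ℂ → ℂ) (p : ℂ × ℂ) (hγ : DifferentiableAt ℂ γ p.1) :
    ∃ L : ℂ × ℂ →L[ℂ] E3, HasFDerivAt (gp ι c κ γ) L p ∧ L (0, 1) 0 = 0 ∧ L (0, 1) 1 = 0 ∧ L (0, 1) 2 = 1 ∧
      (ι = 0 → L (1, 0) 0 = 0 ∧ L (1, 0) 1 = κ) ∧ (ι ≠ 0 → L (1, 0) 0 = κ ∧ L (1, 0) 1 = 0) := by
  have hx : HasFDerivAt (fun q : ℂ × ℂ => c + κ * q.1) ((κ : ℂ) • ContinuousLinearMap.fst ℂ ℂ ℂ) p := by
    have h1 := (ContinuousLinearMap.fst ℂ ℂ ℂ).hasFDerivAt (x := p)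
    exact (h1.const_mul (κ : ℂ)).const_add c
  have hy : HasFDerivAt (fun q : ℂ × ℂ => γ q.1 + q.2)
      ((deriv γ p.1) • ContinuousLinearMap.fst ℂ ℂ ℂ + ContinuousLinearMap.snd ℂ ℂ ℂ) p := by
    have h1 := (ContinuousLinearMap.fst ℂ ℂ ℂ).hasFDerivAt (x := p)
    have h2 : HasFDerivAt (fun q : ℂ × ℂ => γ q.1) ((deriv γ p.1) • ContinuousLinearMap.fst ℂ ℂ ℂ) p :=
      hγ.hasDerivAt.comp_hasFDerivAt p h1
    exact h2.add (ContinuousLinearMap.snd ℂ ℂ ℂ).hasFDerivAt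
  by_cases h : ι = 0
  · refine ⟨ContinuousLinearMap.pi ![0, (κ : ℂ) • ContinuousLinearMap.fst ℂ ℂ ℂ,
      (deriv γ p.1) • ContinuousLinearMap.fst ℂ ℂ ℂ + ContinuousLinearMap.snd ℂ ℂ ℂ], ?_, ?_, ?_, ?_, ?_, ?_⟩
    · rw [hasFDerivAt_pi']
      intro i
      fin_cases i
      · have : (fun q : ℂ × ℂ => gp ι c κ γ q 0) = fun _ => 1 := funext fun q => ((ARE_cht ι _ _).2.1 h).1
        show HasFDerivAt (fun q : ℂ × ℂ => gp ι c κ γ q 0) (0 : ℂ × ℂ →L[ℂ] ℂ) p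
        rw [this]
        exact hasFDerivAt_const _ _
      · have : (fun q : ℂ × ℂ => gp ι c κ γ q 1) = fun q => c + κ * q.1 := funext fun q => ((ARE_cht ι _ _).2.1 h).2
        show HasFDerivAt (fun q : ℂ × ℂ => gp ι c κ γ q 1) ((κ : ℂ) • ContinuousLinearMap.fst ℂ ℂ ℂ) p
        rw [this]
        exact hx
      · have : (fun q : ℂ × ℂ => gp ι c κ γ q 2) = fun q => γ q.1 + q.2 := funext fun q => (ARE_cht ι _ _).1
        show HasFDerivAt (fun q : ℂ × ℂ => gp ι c κ γ q 2)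
          ((deriv γ p.1) • ContinuousLinearMap.fst ℂ ℂ ℂ + ContinuousLinearMap.snd ℂ ℂ ℂ) p
        rw [this]
        exact hy
    · simp
    · simp
    · simp
    · intro _
      simp
    · intro h'
      exact absurd h h'
  · refine ⟨ContinuousLinearMap.pi ![(κ : ℂ) • ContinuousLinearMap.fst ℂ ℂ ℂ, 0,
      (deriv γ p.1) • ContinuousLinearMap.fst ℂ ℂ ℂ + ContinuousLinearMap.snd ℂ ℂ ℂ], ?_, ?_, ?_, ?_, ?_, ?_⟩
    · rw [hasFDerivAt_pi']
      intro i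
      fin_cases i
      · have : (fun q : ℂ × ℂ => gp ι c κ γ q 0) = fun q => c + κ * q.1 := funext fun q => ((ARE_cht ι _ _).2.2 h).1
        show HasFDerivAt (fun q : ℂ × ℂ => gp ι c κ γ q 0) ((κ : ℂ) • ContinuousLinearMap.fst ℂ ℂ ℂ) p
        rw [this]
        exact hx
      · have : (fun q : ℂ × ℂ => gp ι c κ γ q 1) = fun _ => 1 := funext fun q => ((ARE_cht ι _ _).2.2 h).2
        show HasFDerivAt (fun q : ℂ × ℂ => gp ι c κ γ q 1) (0 : ℂ × ℂ →L[ℂ] ℂ) p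
        rw [this]
        exact hasFDerivAt_const _ _
      · have : (fun q : ℂ × ℂ => gp ι c κ γ q 2) = fun q => γ q.1 + q.2 := funext fun q => (ARE_cht ι _ _).1
        show HasFDerivAt (fun q : ℂ × ℂ => gp ι c κ γ q 2)
          ((deriv γ p.1) • ContinuousLinearMap.fst ℂ ℂ ℂ + ContinuousLinearMap.snd ℂ ℂ ℂ) p
        rw [this]
        exact hy
    · simp
    · simp
    · simp
    · intro h'
      exact absurd h' h
    · intro _
      simp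

/-- the determinant -/
theorem ARE_det (ι : Fin 2) (c : ℂ) (κ : ℝ) (γ : ℂ → ℂ) (p : ℂ × ℂ) (L : ℂ × ℂ →L[ℂ] E3)
    (h0 : L (0, 1) 0 = 0) (h1 : L (0, 1) 1 = 0) (h2 : L (0, 1) 2 = 1)
    (ha : ι = 0 → L (1, 0) 0 = 0 ∧ L (1, 0) 1 = κ) (hb : ι ≠ 0 → L (1, 0) 0 = κ ∧ L (1, 0) 1 = 0) :
    Complex.normSq (gp ι c κ γ p ⬝ᵥ crs (L (1, 0)) (L (0, 1))) = κ ^ 2 := by
  have e : gp ι c κ γ p ⬝ᵥ crs (L (1, 0)) (L (0, 1)) =
      gp ι c κ γ p 0 * (L (1, 0) 1 * L (0, 1) 2 - L (1, 0) 2 * L (0, 1) 1) +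
      gp ι c κ γ p 1 * (L (1, 0) 2 * L (0, 1) 0 - L (1, 0) 0 * L (0, 1) 2) +
      gp ι c κ γ p 2 * (L (1, 0) 0 * L (0, 1) 1 - L (1, 0) 1 * L (0, 1) 0) := by
    unfold crs dotProduct
    rw [Fin.sum_univ_three]
    rfl
  rw [e, h0, h1, h2]
  by_cases h : ι = 0
  · obtain ⟨a1, a2⟩ := ha h
    have g0 : gp ι c κ γ p 0 = 1 := ((ARE_cht ι _ _).2.1 h).1
    rw [a1, a2, g0]
    simp [Complex.normSq_ofReal, pow_two]
  · obtain ⟨a1, a2⟩ := hb h
    have g1 : gp ι c κ γ p 1 = 1 := ((ARE_cht ι _ _).2.2 h).2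
    rw [a1, a2, g1]
    simp [Complex.normSq_ofReal, pow_two]

theorem ARE_point (hMAU : MAU_stmt) (hCHN : CHN_stmt) (hENC : ENC_stmt) (hAPS : APS_stmt) {d : ℕ} {f : Endo 2 d}
    {U : Set (PP 2)} (hd : 2 ≤ d) (hG : Good0 f U) {j N : ℕ} (hj : j ≤ N) {ι : Fin 2} {c : ℂ} {κ s : ℝ} {γ : ℂ → ℂ}
    (hγ : DifferentiableOn ℂ γ (ball 0 1))
    (htube : ∀ ξ ∈ ball (0 : ℂ) 1, ∀ v ∈ ball (0 : ℂ) s, gp ι c κ γ (ξ, v) ∈ cone U) {ξ v : ℂ}
    (hξ : ξ ∈ ball (0 : ℂ) 1) (hv : v ∈ ball (0 : ℂ) s) :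
    lev (fun p => (1 / 2) * Real.log (nq (It f j (gp ι c κ γ p)))) (ξ, v)
      (ev (gP f N ι c κ γ) (gQ f N ι c κ γ) (ξ, v)) * om (gP f N ι c κ γ) (gQ f N ι c κ γ) (ξ, v) / (2 * (d : ℝ) ^ N) =
      κ ^ 2 * ed f N (psj f j N) (gp ι c κ γ (ξ, v)) := by
  obtain ⟨C, -, hadm, -, -⟩ := hAPS d f U hd hG
  have hA := hadm j N hj
  set Ω : Set (ℂ × ℂ) := ball 0 1 ×ˢ ball 0 s with hΩ
  have hΩo : IsOpen Ω := isOpen_ball.prod isOpen_ball
  set p : ℂ × ℂ := (ξ, v) with hp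
  have hpΩ : p ∈ Ω := ⟨hξ, hv⟩
  set Φ := gp ι c κ γ with hΦ
  have hcone : ∀ q ∈ Ω, Φ q ∈ cone U := fun q hq => htube q.1 hq.1 q.2 hq.2
  have hcd0 : ∀ q ∈ Ω, DifferentiableAt ℂ γ q.1 := fun q hq => hγ.differentiableAt (isOpen_ball.mem_nhds hq.1)
  have hΦd : DifferentiableOn ℂ Φ Ω := by
    intro q hq
    obtain ⟨L, hL, -⟩ := ARE_deriv ι c κ γ q (hcd0 q hq)
    exact hL.differentiableAt.differentiableWithinAt
  obtain ⟨L, hL, l0, l1, l2, la, lb⟩ := ARE_deriv ι c κ γ p (hcd0 p hpΩ)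
  have hfd : fderiv ℂ Φ p = L := hL.fderiv
  have hIt : ∀ i : Fin 3, Differentiable ℂ (fun W : E3 => It f N W i) := fun i =>
    (MAN_It_cd (k := 1) f N i).differentiable (by norm_num)
  have hPd : DifferentiableOn ℂ (gP f N ι c κ γ) Ω := (hIt 0).comp_differentiableOn hΦd
  have hQd : DifferentiableOn ℂ (gQ f N ι c κ γ) Ω := (hIt 1).comp_differentiableOn hΦd
  have hne : ∀ q ∈ Ω, gP f N ι c κ γ q ≠ 0 ∨ gQ f N ι c κ γ q ≠ 0 := by
    intro q hq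
    have h1 := MAN_pq_pos hG (hcone q hq) N
    by_contra hcon
    push Not at hcon
    obtain ⟨c1, c2⟩ := hcon
    have e1 : It f N (Φ q) 0 = 0 := c1
    have e2 : It f N (Φ q) 1 = 0 := c2
    unfold pq at h1
    rw [e1, e2] at h1
    simp at h1
  -- the derivative of `P`
  have hPv : ∀ a : ℂ × ℂ, fderiv ℂ (gP f N ι c κ γ) p a = fderiv ℂ (fun W => It f N W 0) (Φ p) (L a) := by
    intro a
    have h1 : HasFDerivAt (gP f N ι c κ γ) ((fderiv ℂ (fun W : E3 => It f N W 0) (Φ p)).comp L) p :=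
      ((hIt 0) (Φ p)).hasFDerivAt.comp p hL
    rw [h1.fderiv]
    rfl
  have hQv : ∀ a : ℂ × ℂ, fderiv ℂ (gQ f N ι c κ γ) p a = fderiv ℂ (fun W => It f N W 1) (Φ p) (L a) := by
    intro a
    have h1 : HasFDerivAt (gQ f N ι c κ γ) ((fderiv ℂ (fun W : E3 => It f N W 1) (Φ p)).comp L) p :=
      ((hIt 1) (Φ p)).hasFDerivAt.comp p hL
    rw [h1.fderiv]
    rfl
  have hw1 : w1 (gP f N ι c κ γ) (gQ f N ι c κ γ) p = cc f N (Φ p) (L (1, 0)) := by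
    unfold w1 cc
    rw [hPv, hQv]
    rfl
  have hw2 : w2 (gP f N ι c κ γ) (gQ f N ι c κ γ) p = cc f N (Φ p) (L (0, 1)) := by
    unfold w2 cc
    rw [hPv, hQv]
    rfl
  have hev : L (ev (gP f N ι c κ γ) (gQ f N ι c κ γ) p) =
      cc f N (Φ p) (L (1, 0)) • L (0, 1) - cc f N (Φ p) (L (0, 1)) • L (1, 0) := by
    have e1 : ev (gP f N ι c κ γ) (gQ f N ι c κ γ) p =
        cc f N (Φ p) (L (1, 0)) • ((0 : ℂ), (1 : ℂ)) - cc f N (Φ p) (L (0, 1)) • ((1 : ℂ), (0 : ℂ)) := by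
      unfold Pool.Agent.P2.ev
      rw [hw1, hw2]
      ext <;> simp
    rw [e1, map_sub, map_smul, map_smul]
  -- smoothness
  have hopen := cone_open hG.1.1
  have hpsi : ContDiffAt ℝ 2 (psj f j N) (Φ p) :=
    (hA.1.contDiffAt (hopen.mem_nhds (hcone p hpΩ))).of_le ENat.LEInfty.out
  have hΦcd : ContDiffAt ℝ 2 Φ p := by
    have hγ2 : ContDiffAt ℝ 2 γ p.1 := by
      have h1 : ContDiffAt ℂ 2 γ p.1 := (hγ.contDiffOn isOpen_ball).contDiffAt (isOpen_ball.mem_nhds hξ)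
      exact h1.restrict_scalars ℝ
    have hx : ContDiffAt ℝ 2 (fun q : ℂ × ℂ => c + κ * q.1) p := by fun_prop
    have hy : ContDiffAt ℝ 2 (fun q : ℂ × ℂ => γ q.1 + q.2) p := by
      have h2 : ContDiffAt ℝ 2 (fun q : ℂ × ℂ => γ q.1) p := hγ2.comp p contDiffAt_fst
      exact h2.add contDiffAt_snd
    rw [contDiffAt_pi]
    intro i
    by_cases h : ι = 0
    · fin_cases i
      · have : (fun q : ℂ × ℂ => gp ι c κ γ q 0) = fun _ => 1 := funext fun q => ((ARE_cht ι _ _).2.1 h).1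
        show ContDiffAt ℝ 2 (fun q : ℂ × ℂ => gp ι c κ γ q 0) p
        rw [this]
        exact contDiffAt_const
      · have : (fun q : ℂ × ℂ => gp ι c κ γ q 1) = fun q => c + κ * q.1 := funext fun q => ((ARE_cht ι _ _).2.1 h).2
        show ContDiffAt ℝ 2 (fun q : ℂ × ℂ => gp ι c κ γ q 1) p
        rw [this]
        exact hx
      · have : (fun q : ℂ × ℂ => gp ι c κ γ q 2) = fun q => γ q.1 + q.2 := funext fun q => (ARE_cht ι _ _).1
        show ContDiffAt ℝ 2 (fun q : ℂ × ℂ => gp ι c κ γ q 2) p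
        rw [this]
        exact hy
    · fin_cases i
      · have : (fun q : ℂ × ℂ => gp ι c κ γ q 0) = fun q => c + κ * q.1 := funext fun q => ((ARE_cht ι _ _).2.2 h).1
        show ContDiffAt ℝ 2 (fun q : ℂ × ℂ => gp ι c κ γ q 0) p
        rw [this]
        exact hx
      · have : (fun q : ℂ × ℂ => gp ι c κ γ q 1) = fun _ => 1 := funext fun q => ((ARE_cht ι _ _).2.2 h).2
        show ContDiffAt ℝ 2 (fun q : ℂ × ℂ => gp ι c κ γ q 1) p
        rw [this]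
        exact contDiffAt_const
      · have : (fun q : ℂ × ℂ => gp ι c κ γ q 2) = fun q => γ q.1 + q.2 := funext fun q => (ARE_cht ι _ _).1
        show ContDiffAt ℝ 2 (fun q : ℂ × ℂ => gp ι c κ γ q 2) p
        rw [this]
        exact hy
  have hItR : ∀ i : Fin 3, ContDiff ℝ 2 (fun W : E3 => It f N W i) := fun i => (MAN_It_cd f N i).restrict_scalars ℝ
  have h1cd : ContDiffAt ℝ 2 (fun q => psj f j N (Φ q)) p := hpsi.comp p hΦcd
  have hd0 : (0 : ℝ) < d := by exact_mod_cast (by omega : 0 < d)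
  have hD' : (0 : ℝ) < (d : ℝ) ^ N / (d : ℝ) ^ j := by positivity
  have h2cd : ContDiffAt ℝ 2 (uu (gP f N ι c κ γ) (gQ f N ι c κ γ) ((d : ℝ) ^ N / (d : ℝ) ^ j)) p := by
    unfold uu
    have hP2 : ContDiffAt ℝ 2 (gP f N ι c κ γ) p := ((hItR 0).contDiffAt).comp p hΦcd
    have hQ2 : ContDiffAt ℝ 2 (gQ f N ι c κ γ) p := ((hItR 1).contDiffAt).comp p hΦcd
    have hs : ContDiffAt ℝ 2 (fun q => Complex.normSq (gP f N ι c κ γ q) + Complex.normSq (gQ f N ι c κ γ q)) p :=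
      (ARE_normSq_cd.contDiffAt.comp p hP2).add (ARE_normSq_cd.contDiffAt.comp p hQ2)
    have hpos := MAN_pq_pos hG (hcone p hpΩ) N
    have hl := hs.log hpos.ne'
    exact (contDiffAt_const.mul hl).div_const _
  have hfun : (fun q => (1 / 2) * Real.log (nq (It f j (Φ q)))) =
      fun q => psj f j N (Φ q) + uu (gP f N ι c κ γ) (gQ f N ι c κ γ) ((d : ℝ) ^ N / (d : ℝ) ^ j) q := by
    funext q
    unfold psj un uu pq gP gQ
    have e1 : (d : ℝ) ^ j ≠ 0 := by positivity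
    have e2 : (d : ℝ) ^ N ≠ 0 := by positivity
    field_simp
    ring
  have hzero : lev (uu (gP f N ι c κ γ) (gQ f N ι c κ γ) ((d : ℝ) ^ N / (d : ℝ) ^ j)) p
      (ev (gP f N ι c κ γ) (gQ f N ι c κ γ) p) = 0 :=
    (hMAU Ω _ _ (fun _ => 0) _ hΩo hPd hQd hne contDiffOn_const hD' p hpΩ).2.2
  have hchn := hCHN.1 Ω Φ (psj f j N) p (ev (gP f N ι c κ γ) (gQ f N ι c κ γ) p) hΩo hΦd hpΩ hpsi
  have key : lev (fun q => (1 / 2) * Real.log (nq (It f j (Φ q)))) p (ev (gP f N ι c κ γ) (gQ f N ι c κ γ) p) =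
      lev (psj f j N) (Φ p) (cc f N (Φ p) (L (1, 0)) • L (0, 1) - cc f N (Φ p) (L (0, 1)) • L (1, 0)) := by
    rw [hfun, ARE_lev_add h1cd h2cd, hzero, add_zero, hchn, hfd, hev]
  have henc := (hENC d f U N (psj f j N) C hd hG hA (Φ p) (hcone p hpΩ)).1 (L (1, 0)) (L (0, 1))
  rw [ARE_det ι c κ γ p L l0 l1 l2 la lb] at henc
  rw [key, ← henc]
  unfold en om
  have hq : Complex.normSq (gP f N ι c κ γ p) + Complex.normSq (gQ f N ι c κ γ p) = pq (It f N (Φ p)) := rfl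
  rw [hq]
  have hpos := MAN_pq_pos hG (hcone p hpΩ) N
  field_simp

end Pool.Agent.P2A
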