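import Pool.Agent.helper34.P2.AREa

/-! # Row p2:ARE, part B: Tonelli and covering -/

set_option autoImplicit false

open scoped ContDiff Topology
open MeasureTheory Filter Set Metric MvPolynomial Pool.Agent.helper37.QA

namespace Pool.Agent.P2A

open Pool.Agent.P2

theorem ARE_ofReal {α : Type*} [MeasurableSpace α] (μ : Measure α) (g : α → ℝ) :
    ENNReal.ofReal (∫ x, g x ∂μ) ≤ ∫⁻ x, ENNReal.ofReal (g x) ∂μ := by
  by_cases hg : Integrable g μ
  · rw [integral_eq_lintegral_pos_part_sub_lintegral_neg_part hg]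
    refine (ENNReal.ofReal_le_ofReal (sub_le_self _ ENNReal.toReal_nonneg)).trans ?_
    exact ENNReal.ofReal_toReal_le
  · rw [integral_undef hg]
    simp

theorem ARE_scale (G : ℂ → ENNReal) (hG : Measurable G) (c : ℂ) {κ : ℝ} (hκ : 0 < κ) :
    ENNReal.ofReal (κ ^ 2) * ∫⁻ ξ, G (c + κ * ξ) = ∫⁻ x, G x := by
  have h1 : ∫⁻ ξ : ℂ, G (c + κ * ξ) = ∫⁻ y, G (c + y) ∂(Measure.map (fun ξ : ℂ => κ • ξ) volume) := by
    rw [lintegral_map (by fun_prop) (by fun_prop)]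
    refine lintegral_congr fun ξ => ?_
    rw [Complex.real_smul]
  rw [h1, Measure.map_addHaar_smul volume hκ.ne', lintegral_smul_measure, smul_eq_mul, ← mul_assoc,
    Complex.finrank_real_complex, ← ENNReal.ofReal_mul (by positivity)]
  have h2 : κ ^ 2 * |(κ ^ 2)⁻¹| = 1 := by
    rw [abs_of_pos (by positivity)]
    field_simp
  rw [h2, ENNReal.ofReal_one, one_mul]
  exact lintegral_add_left_eq_self G c

theorem ARE_tonelli (H : ℂ × ℂ → ENNReal) (hH : Measurable H) {γ : ℂ → ℂ} (hγ : ContinuousOn γ (ball 0 1)) (c : ℂ)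
    {κ : ℝ} (hκ : 0 < κ) (r : ℝ) :
    ∫⁻ v in ball (0 : ℂ) r, ∫⁻ ξ in ball (0 : ℂ) 1, ENNReal.ofReal (κ ^ 2) * H (c + κ * ξ, γ ξ + v) ≤ ∫⁻ p, H p := by
  classical
  set γ1 : ℂ → ℂ := (ball (0 : ℂ) 1).piecewise γ (fun _ => 0) with hγ1
  have hm : Measurable γ1 := ContinuousOn.measurable_piecewise hγ continuousOn_const measurableSet_ball
  have e1 : ∀ v : ℂ, ∫⁻ ξ in ball (0 : ℂ) 1, ENNReal.ofReal (κ ^ 2) * H (c + κ * ξ, γ ξ + v) =
      ∫⁻ ξ in ball (0 : ℂ) 1, ENNReal.ofReal (κ ^ 2) * H (c + κ * ξ, γ1 ξ + v) := by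
    intro v
    refine setLIntegral_congr_fun measurableSet_ball fun ξ hξ => ?_
    have : γ1 ξ = γ ξ := Set.piecewise_eq_of_mem _ _ _ hξ
    simp only [this]
  simp_rw [e1]
  have hmeas : Measurable (fun q : ℂ × ℂ => ENNReal.ofReal (κ ^ 2) * H (c + κ * q.2, γ1 q.2 + q.1)) := by
    have h1 : Measurable (fun q : ℂ × ℂ => (c + κ * q.2, γ1 q.2 + q.1)) := by
      refine Measurable.prodMk (by fun_prop) ?_
      exact (hm.comp measurable_snd).add measurable_fst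
    exact (hH.comp h1).const_mul _
  rw [lintegral_lintegral_swap hmeas.aemeasurable]
  have hG : Measurable (fun x : ℂ => ∫⁻ y, H (x, y)) := hH.lintegral_prod_right'
  calc ∫⁻ ξ in ball (0 : ℂ) 1, ∫⁻ v in ball (0 : ℂ) r, ENNReal.ofReal (κ ^ 2) * H (c + κ * ξ, γ1 ξ + v)
      ≤ ∫⁻ ξ, ∫⁻ v, ENNReal.ofReal (κ ^ 2) * H (c + κ * ξ, γ1 ξ + v) := by
        refine (setLIntegral_le_lintegral _ _).trans ?_
        exact lintegral_mono fun ξ => setLIntegral_le_lintegral _ _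
    _ = ∫⁻ ξ : ℂ, ENNReal.ofReal (κ ^ 2) * ∫⁻ y, H (c + κ * ξ, y) := by
        refine lintegral_congr fun ξ => ?_
        rw [lintegral_const_mul' _ _ ENNReal.ofReal_ne_top]
        congr 1
        exact lintegral_add_left_eq_self (fun y => H (c + κ * ξ, y)) (γ1 ξ)
    _ = ENNReal.ofReal (κ ^ 2) * ∫⁻ ξ : ℂ, (fun x : ℂ => ∫⁻ y, H (x, y)) (c + κ * ξ) := by
        rw [lintegral_const_mul' _ _ ENNReal.ofReal_ne_top]
    _ = ∫⁻ x, ∫⁻ y, H (x, y) := ARE_scale _ hG c hκ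
    _ = ∫⁻ p, H p := by
        rw [← lintegral_prod _ hH.aemeasurable]
        rfl

theorem ARE_cover {F : ℂ × ℂ → ENNReal} (T : Finset (ℂ × ℂ)) (B : ℂ × ℂ → Set (ℂ × ℂ)) (b : ENNReal)
    (hb : ∀ p ∈ T, ∫⁻ q in B p, F q ≤ b) : ∫⁻ q in ⋃ p ∈ T, B p, F q ≤ T.card * b := by
  classical
  induction T using Finset.induction_on with
  | empty => simp
  | insert a T ha ih =>
    rw [Finset.set_biUnion_insert, Finset.card_insert_of_notMem ha]
    refine (lintegral_union_le _ _ _).trans ?_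
    have h1 := hb a (Finset.mem_insert_self _ _)
    have h2 := ih fun p hp => hb p (Finset.mem_insert_of_mem hp)
    push_cast
    rw [add_mul, one_mul, add_comm]
    exact add_le_add h2 h1

/-- the chart point is not zero -/
theorem ARE_ne (ι : Fin 2) (x y : ℂ) : cht ι x y ≠ 0 := by
  intro h
  by_cases hι : ι = 0
  · have h1 := ((ARE_cht ι x y).2.1 hι).1
    rw [h] at h1
    simp at h1
  · have h1 := ((ARE_cht ι x y).2.2 hι).2
    rw [h] at h1
    simp at h1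

theorem ARE_bound (d : ℕ) (f : Endo 2 d) (U : Set (PP 2)) (hUN1 : UN1_stmt) (hd : 2 ≤ d) (hU : Good0 f U) :
    ∃ R : ℝ, 0 ≤ R ∧ ∀ (ι : Fin 2) (x y : ℂ), ‖x‖ ≤ 3 → cht ι x y ∈ cone U → ‖y‖ ≤ R := by
  obtain ⟨C, hC, -, -, h3, -⟩ := hUN1 d f U hd hU
  refine ⟨10 * C + 1, by positivity, fun ι x y hx hc => ?_⟩
  have hc' : cht ι x y ∈ cone (closure U) := by
    obtain ⟨g1, g2⟩ := hc
    exact ⟨g1, subset_closure g2⟩
  have h4 := (h3 0 _ hc').2
  rw [MAN_It_zero] at h4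
  have h5 : pq (cht ι x y) ≤ 10 := by
    unfold pq
    have h6 : Complex.normSq x ≤ 9 := by
      rw [Complex.normSq_eq_norm_sq]
      nlinarith [norm_nonneg x]
    by_cases hι : ι = 0
    · obtain ⟨a1, a2⟩ := (ARE_cht ι x y).2.1 hι
      rw [a1, a2]
      simp
      linarith
    · obtain ⟨a1, a2⟩ := (ARE_cht ι x y).2.2 hι
      rw [a1, a2]
      simp
      linarith
  have h7 : Complex.normSq y ≤ nq (cht ι x y) := by
    rw [ARE_nq3, (ARE_cht ι x y).1]
    have := Complex.normSq_nonneg (cht ι x y 0)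
    have := Complex.normSq_nonneg (cht ι x y 1)
    linarith
  have h8 : ‖y‖ ^ 2 ≤ 10 * C := by
    rw [← Complex.normSq_eq_norm_sq]
    nlinarith
  nlinarith [norm_nonneg y]

end Pool.Agent.P2A
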