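import Pool.Agent.helper37.P2.SpecD

set_option autoImplicit false

open scoped ContDiff Topology
open MeasureTheory Filter Set Metric MvPolynomial Pool.Agent.helper37.QA

namespace Pool.Agent.P2

/-- existence of the fixed points -/
theorem HFP_fix {a : ℂ} {ρ : ℝ} {g : ℂ → ℂ} (hρ : 0 < ρ) (h1 : ∀ u ∈ closedBall a ρ, g u ∈ closedBall a ρ)
    (h2 : ∀ u ∈ closedBall a ρ, ∀ u' ∈ closedBall a ρ, ‖g u - g u'‖ ≤ (1 / 2) * ‖u - u'‖) :
    ∃ x ∈ closedBall a ρ, g x = x := by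
  have hm : MapsTo g (closedBall a ρ) (closedBall a ρ) := h1
  have hc : ContractingWith (1 / 2 : NNReal) (hm.restrict g (closedBall a ρ) (closedBall a ρ)) := by
    refine ⟨by rw [← NNReal.coe_lt_coe]; norm_num, LipschitzWith.of_dist_le_mul fun x y => ?_⟩
    have := h2 x.1 x.2 y.1 y.2
    rw [Subtype.dist_eq, Subtype.dist_eq, dist_eq_norm, dist_eq_norm]
    simpa using this
  obtain ⟨y, hy, hfix, -⟩ := ContractingWith.exists_fixedPoint' (isClosed_closedBall (x := a) (ε := ρ)).isComplete hm hc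
    (mem_closedBall_self hρ.le) (edist_ne_top _ _)
  exact ⟨y, hy, hfix⟩

/-- the `u`-derivative is small -/
theorem HFP_small {a : ℂ} {ρ : ℝ} {G : (ℂ × ℂ) × ℂ → ℂ} {p : ℂ × ℂ} {u : ℂ} (hρ : 0 < ρ) (hu : u ∈ closedBall a ρ)
    (hG : DifferentiableAt ℂ G (p, u))
    (h2 : ∀ u ∈ closedBall a ρ, ∀ u' ∈ closedBall a ρ, ‖G (p, u) - G (p, u')‖ ≤ (1 / 2) * ‖u - u'‖) :
    ‖fderiv ℂ G (p, u) (0, 1)‖ ≤ 1 / 2 := by
  obtain ⟨w, hw, hwu⟩ : ∃ w ∈ closedBall a ρ, w ≠ u := by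
    by_cases h : a = u
    · refine ⟨a + ρ, ?_, ?_⟩
      · rw [mem_closedBall, dist_eq_norm]
        simp [abs_of_pos hρ]
      · rw [← h]
        intro h3
        have : (ρ : ℂ) = 0 := by linear_combination h3
        exact hρ.ne' (by exact_mod_cast this)
    · exact ⟨a, mem_closedBall_self hρ.le, h⟩
  have hline : HasDerivAt (fun t : ℝ => G (p, u + (t : ℂ) * (w - u))) (fderiv ℂ G (p, u) (0, w - u)) 0 := by
    have h3 : HasDerivAt (fun t : ℝ => (p, u + (t : ℂ) * (w - u))) ((0 : ℂ × ℂ), w - u) 0 := by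
      apply HasDerivAt.prodMk (hasDerivAt_const _ _)
      have h4 : HasDerivAt (fun t : ℝ => (t : ℂ)) 1 0 := by
        simpa using (hasDerivAt_id (0 : ℝ)).ofReal_comp
      have := (h4.mul_const (w - u)).const_add u
      simpa using this
    have h5 : HasFDerivAt G (fderiv ℂ G (p, u)) (p, u + ((0 : ℝ) : ℂ) * (w - u)) := by
      have : (p, u + ((0 : ℝ) : ℂ) * (w - u)) = (p, u) := by simp
      rw [this]
      exact hG.hasFDerivAt
    exact (h5.restrictScalars ℝ).comp_hasDerivAt (0 : ℝ) h3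
  have hlim := hline.tendsto_slope_zero_right
  have hle : ‖fderiv ℂ G (p, u) (0, w - u)‖ ≤ 1 / 2 * ‖w - u‖ := by
    refine le_of_tendsto hlim.norm ?_
    have h6 : ∀ᶠ t : ℝ in 𝓝[>] 0, 0 < t ∧ t < 1 := by
      filter_upwards [Ioo_mem_nhdsGT (zero_lt_one' ℝ)] with t ht
      exact ht
    filter_upwards [h6] with t ht
    have h7 : u + (t : ℂ) * (w - u) ∈ closedBall a ρ := by
      have := (convex_closedBall a ρ).add_smul_sub_mem hu hw ⟨ht.1.le, ht.2.le⟩
      simpa [Complex.real_smul] using this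
    have h8 := h2 _ h7 _ hu
    rw [zero_add, norm_smul, Real.norm_eq_abs, abs_of_pos (inv_pos.mpr ht.1)]
    have h9 : (p, u + ((0 : ℝ) : ℂ) * (w - u)) = (p, u) := by simp
    rw [h9]
    have h10 : u + (t : ℂ) * (w - u) - u = (t : ℂ) * (w - u) := by ring
    rw [h10, norm_mul, Complex.norm_real, Real.norm_eq_abs, abs_of_pos ht.1] at h8
    calc t⁻¹ * ‖G (p, u + (t : ℂ) * (w - u)) - G (p, u)‖ ≤ t⁻¹ * (1 / 2 * (t * ‖w - u‖)) := by
          gcongr
          exact (inv_pos.mpr ht.1).le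
      _ = 1 / 2 * ‖w - u‖ := by
          have := ht.1.ne'
          field_simp
  have hlin : fderiv ℂ G (p, u) (0, w - u) = (w - u) * fderiv ℂ G (p, u) (0, 1) := by
    have h11 : ((0 : ℂ × ℂ), w - u) = (w - u) • ((0 : ℂ × ℂ), (1 : ℂ)) := by
      ext <;> simp
    rw [h11, map_smul, smul_eq_mul]
  rw [hlin, norm_mul] at hle
  have hpos : 0 < ‖w - u‖ := norm_pos_iff.mpr (sub_ne_zero.mpr hwu)
  nlinarith

theorem HFP : HFP_stmt := by
  intro a ρ ρ' G hρ hρ' hG h1 h2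
  classical
  have hfix : ∀ p : ℂ × ℂ, ∃ x : ℂ, p ∈ ball (0 : ℂ × ℂ) 1 → x ∈ closedBall a ρ ∧ G (p, x) = x := by
    intro p
    by_cases hp : p ∈ ball (0 : ℂ × ℂ) 1
    · obtain ⟨x, hx, hx2⟩ := HFP_fix (g := fun u => G (p, u)) hρ (h1 p hp) (h2 p hp)
      exact ⟨x, fun _ => ⟨hx, hx2⟩⟩
    · exact ⟨0, fun h => absurd h hp⟩
  choose X hX using hfix
  refine ⟨X, ?_, hX⟩
  intro p0 hp0
  apply DifferentiableAt.differentiableWithinAt
  obtain ⟨hu0, hfx0⟩ := hX p0 hp0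
  have hnb : ball (0 : ℂ × ℂ) 1 ∈ 𝓝 p0 := isOpen_ball.mem_nhds hp0
  have hopen : IsOpen (ball (0 : ℂ × ℂ) 1 ×ˢ ball a ρ') := isOpen_ball.prod isOpen_ball
  have hmem : (p0, X p0) ∈ ball (0 : ℂ × ℂ) 1 ×ˢ ball a ρ' :=
    ⟨hp0, closedBall_subset_ball hρ' hu0⟩
  have hGd : DifferentiableAt ℂ G (p0, X p0) := hG.differentiableAt (hopen.mem_nhds hmem)
  have hB := HFP_small hρ hu0 hGd (h2 p0 hp0)
  set D := fderiv ℂ G (p0, X p0) with hD
  set B := D (0, 1) with hBdef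
  -- Lipschitz bound
  have hO : (fun p => X p - X p0) =O[𝓝 p0] (fun p => p - p0) := by
    have h3 : (fun p => G (p, X p0) - G (p0, X p0)) =O[𝓝 p0] (fun p => p - p0) := by
      have h4 : DifferentiableAt ℂ (fun p : ℂ × ℂ => G (p, X p0)) p0 := by
        have h5 : DifferentiableAt ℂ (fun p : ℂ × ℂ => (p, X p0)) p0 :=
          differentiableAt_id.prodMk (differentiableAt_const _)
        exact DifferentiableAt.comp p0 hGd h5
      exact h4.hasFDerivAt.isBigO_sub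
    refine Asymptotics.IsBigO.trans ?_ h3
    refine Asymptotics.IsBigO.of_bound 2 ?_
    filter_upwards [hnb] with p hp
    obtain ⟨hup, hfxp⟩ := hX p hp
    have h6 := h2 p hp (X p) hup (X p0) hu0
    have h7 : X p - X p0 = (G (p, X p) - G (p, X p0)) + (G (p, X p0) - G (p0, X p0)) := by
      rw [hfxp, hfx0]
      ring
    have h8 : ‖X p - X p0‖ ≤ ‖G (p, X p) - G (p, X p0)‖ + ‖G (p, X p0) - G (p0, X p0)‖ := by
      calc ‖X p - X p0‖ = ‖(G (p, X p) - G (p, X p0)) + (G (p, X p0) - G (p0, X p0))‖ := by rw [← h7]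
        _ ≤ _ := norm_add_le _ _
    linarith
  have hcont : ContinuousAt X p0 := by
    have h9 : Tendsto (fun p => X p - X p0) (𝓝 p0) (𝓝 0) := by
      apply hO.trans_tendsto
      have : ContinuousAt (fun p : ℂ × ℂ => p - p0) p0 := by fun_prop
      simpa [ContinuousAt] using this
    have h10 := h9.add_const (X p0)
    simpa [ContinuousAt] using h10
  have htend : Tendsto (fun p => (p, X p)) (𝓝 p0) (𝓝 (p0, X p0)) := by
    exact continuousAt_id.prodMk hcont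
  have hr := hGd.hasFDerivAt.isLittleO.comp_tendsto htend
  have hO2 : ((fun q : (ℂ × ℂ) × ℂ => q - (p0, X p0)) ∘ fun p => (p, X p)) =O[𝓝 p0] (fun p => p - p0) := by
    have : ((fun q : (ℂ × ℂ) × ℂ => q - (p0, X p0)) ∘ fun p => (p, X p)) = fun p => (p - p0, X p - X p0) := by
      funext p
      rfl
    rw [this]
    exact Asymptotics.IsBigO.prod_left (Asymptotics.isBigO_refl _ _) hO
  have hr2 := hr.trans_isBigO hO2
  have h1B : (1 : ℂ) - B ≠ 0 := by
    intro h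
    have : B = 1 := by linear_combination -h
    rw [this] at hB
    norm_num at hB
  refine ⟨((1 - B)⁻¹ : ℂ) • (D.comp (ContinuousLinearMap.inl ℂ (ℂ × ℂ) ℂ)), ?_⟩
  rw [hasFDerivAt_iff_isLittleO]
  have hr3 := hr2.const_mul_left ((1 - B)⁻¹ : ℂ)
  refine hr3.congr' ?_ (EventuallyEq.refl _ _)
  filter_upwards [hnb] with p hp
  obtain ⟨hup, hfxp⟩ := hX p hp
  have h12 : D ((p, X p) - (p0, X p0)) = D (p - p0, 0) + (X p - X p0) * B := by
    have h13 : ((p, X p) - (p0, X p0) : (ℂ × ℂ) × ℂ) = (p - p0, 0) + (X p - X p0) • ((0 : ℂ × ℂ), (1 : ℂ)) := by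
      ext <;> simp
    rw [h13, map_add, map_smul, smul_eq_mul]
  simp only [Function.comp_apply]
  rw [← hD, h12, hfxp, hfx0]
  simp only [smul_apply, ContinuousLinearMap.comp_apply, ContinuousLinearMap.inl_apply, smul_eq_mul]
  field_simp
  ring

end Pool.Agent.P2
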