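import Pool.Agent.helper56.P2.SpecW
import Pool.Agent.helper43.P2.CHN

/-! # Row p2:WSD -/

set_option autoImplicit false
set_option linter.unusedVariables false

open scoped ContDiff Topology ComplexConjugate ENNReal
open MeasureTheory Filter Set Metric MvPolynomial Pool.Agent.helper37.QA

namespace Pool.Agent.P2W

open Pool.Agent.P2

theorem WSD_scale (G : ℂ → ℝ≥0∞) (c : ℂ) {a : ℝ} (ha : 0 < a) :
    ∫⁻ x, G x = ENNReal.ofReal (a ^ 2) * ∫⁻ z : ℂ, G (c + a * z) := by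
  have h1 : ∫⁻ z : ℂ, G (c + a * z) = ∫⁻ y, G (c + y) ∂(Measure.map (fun z : ℂ => a • z) volume) := by
    have he : MeasurableEmbedding (fun z : ℂ => a • z) := (Homeomorph.smulOfNeZero a ha.ne').measurableEmbedding
    rw [he.lintegral_map]
    refine lintegral_congr fun z => ?_
    rw [Complex.real_smul]
  rw [h1, Measure.map_addHaar_smul volume ha.ne', lintegral_smul_measure, smul_eq_mul, ← mul_assoc,
    Complex.finrank_real_complex, ← ENNReal.ofReal_mul (by positivity)]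
  have h2 : a ^ 2 * |(a ^ 2)⁻¹| = 1 := by
    rw [abs_of_pos (by positivity)]
    field_simp
  rw [h2, ENNReal.ofReal_one, one_mul]
  exact (lintegral_add_left_eq_self G c).symm

theorem WSD_scale_set (G : ℂ → ℝ≥0∞) (S : Set ℂ) (hS : MeasurableSet S) (c : ℂ) {a : ℝ} (ha : 0 < a) :
    ∫⁻ x in S, G x = ENNReal.ofReal (a ^ 2) * ∫⁻ z in {z : ℂ | c + a * z ∈ S}, G (c + a * z) := by
  have hm : MeasurableSet {z : ℂ | c + a * z ∈ S} := by
    have : Measurable (fun z : ℂ => c + a * z) := by fun_prop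
    exact this hS
  rw [← lintegral_indicator hS, ← lintegral_indicator hm, WSD_scale _ c ha]
  congr 1

theorem WSD_lap (g : ℂ → ℝ) (ξ0 : ℂ) (a D : ℝ) (z0 : ℂ) (hg : ContDiffAt ℝ 2 g (ξ0 + a * z0)) :
    lap (fun z => D * g (ξ0 + a * z)) z0 = D * a ^ 2 * lap g (ξ0 + a * z0) := by
  have hd : ∀ z : ℂ, HasDerivAt (fun z : ℂ => ξ0 + a * z) a z := by
    intro z
    have h1 := ((hasDerivAt_id z).const_mul (a : ℂ)).const_add ξ0
    rwa [mul_one] at h1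
  have hDg : ContDiffAt ℝ 2 (fun z => D * g z) (ξ0 + a * z0) := contDiffAt_const.mul hg
  have h1 := CHN_lap (fun z : ℂ => ξ0 + a * z) z0 (fun z => D * g z)
    (Eventually.of_forall fun z => (hd z).differentiableAt) hDg
  rw [(hd z0).deriv] at h1
  have h2 := CHN_lap (fun z : ℂ => z) (ξ0 + a * z0) g (Eventually.of_forall fun z => differentiableAt_id) hg
  have h3 : deriv (fun z : ℂ => z) (ξ0 + a * z0) = 1 := deriv_id _
  rw [h3] at h2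
  have h4 : fderiv ℝ (fderiv ℝ (fun z => D * g z)) (ξ0 + a * z0) =
      D • fderiv ℝ (fderiv ℝ g) (ξ0 + a * z0) := by
    have e1 : ∀ᶠ z in 𝓝 (ξ0 + a * z0), DifferentiableAt ℝ g z :=
      (hg.eventually (by simp)).mono fun y hy => hy.differentiableAt (by norm_num)
    have e2 : fderiv ℝ (fun z => D * g z) =ᶠ[𝓝 (ξ0 + a * z0)] fun z => D • fderiv ℝ g z := by
      filter_upwards [e1] with z hz
      exact fderiv_const_mul hz D
    have e3 : DifferentiableAt ℝ (fderiv ℝ g) (ξ0 + a * z0) :=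
      (hg.fderiv_right (m := 1) (by norm_num)).differentiableAt (by norm_num)
    rw [e2.fderiv_eq]
    exact fderiv_const_smul e3 D
  have h5 : (a : ℂ) = a • (1 : ℂ) := by simp
  have h7 : ∀ B : ℂ →L[ℝ] ℂ →L[ℝ] ℝ, B (a : ℂ) (a : ℂ) = a ^ 2 * B 1 1 := by
    intro B
    have e1 : B (a : ℂ) = a • B 1 := by rw [h5, map_smul]
    have e2 : B 1 (a : ℂ) = a • B 1 1 := by rw [h5, map_smul]
    rw [e1, smul_apply, e2, smul_eq_mul, smul_eq_mul]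
    ring
  have h8 : ∀ B : ℂ →L[ℝ] ℂ →L[ℝ] ℝ, B (Complex.I • (a : ℂ)) (Complex.I • (a : ℂ)) =
      a ^ 2 * B (Complex.I • (1 : ℂ)) (Complex.I • (1 : ℂ)) := by
    intro B
    have h6 : Complex.I • (a : ℂ) = a • (Complex.I • (1 : ℂ)) := by
      rw [smul_comm]
      simp
    have e1 : B (Complex.I • (a : ℂ)) = a • B (Complex.I • (1 : ℂ)) := by rw [h6, map_smul]
    have e2 : B (Complex.I • (1 : ℂ)) (Complex.I • (a : ℂ)) = a • B (Complex.I • (1 : ℂ)) (Complex.I • (1 : ℂ)) := by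
      rw [h6, map_smul]
    rw [e1, smul_apply, e2, smul_eq_mul, smul_eq_mul]
    ring
  have h2' : lap g (ξ0 + a * z0) = 1 / 4 *
      (((fderiv ℝ (fderiv ℝ g) (ξ0 + ↑a * z0)) 1) 1 +
        ((fderiv ℝ (fderiv ℝ g) (ξ0 + ↑a * z0)) (Complex.I • 1)) (Complex.I • 1)) := h2
  rw [h1, h7, h8, h2', h4]
  simp only [smul_apply, smul_eq_mul]
  ring

/-! ### One disc -/

section
variable {d : ℕ} {f : Endo 2 d} {U : Set (PP 2)} {τ κ C0 α : ℝ} {ι : Fin 2} {c : ℂ} {γ : ℂ → ℂ}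

/-- affine coordinate of the disc -/
theorem WSD_aff {ξ0 : ℂ} {ρ : ℝ} (hξ : ‖ξ0‖ ≤ 1 / 16) (hρ : 0 < ρ) (hρ1 : ρ ≤ 1 / 16) {x : ℂ} (hx : x ∈ ball (0 : ℂ) 1) :
    ξ0 + ((4 * ρ : ℝ) : ℂ) * x ∈ ball (0 : ℂ) 1 := by
  rw [mem_ball_zero_iff] at hx ⊢
  have h1 : ‖((4 * ρ : ℝ) : ℂ) * x‖ ≤ 4 * ρ := by
    rw [norm_mul, Complex.norm_real, Real.norm_eq_abs, abs_of_pos (by positivity)]
    nlinarith [norm_nonneg x]
  calc ‖ξ0 + ((4 * ρ : ℝ) : ℂ) * x‖ ≤ ‖ξ0‖ + ‖((4 * ρ : ℝ) : ℂ) * x‖ := norm_add_le _ _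
    _ < 1 := by linarith

theorem WSD_path (ξ0 v : ℂ) (ρ : ℝ) (x : ℂ) :
    HasDerivAt (fun x : ℂ => (ξ0 + ((4 * ρ : ℝ) : ℂ) * x, v)) (((4 * ρ : ℝ) : ℂ) • ((1 : ℂ), (0 : ℂ))) x := by
  have h1 : HasDerivAt (fun x : ℂ => ξ0 + ((4 * ρ : ℝ) : ℂ) * x) ((4 * ρ : ℝ) : ℂ) x := by
    have h2 := ((hasDerivAt_id x).const_mul ((4 * ρ : ℝ) : ℂ)).const_add ξ0
    rwa [mul_one] at h2
  have h3 := h1.prodMk (hasDerivAt_const x v)
  have e : (((4 * ρ : ℝ) : ℂ) • ((1 : ℂ), (0 : ℂ))) = (((4 * ρ : ℝ) : ℂ), (0 : ℂ)) := by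
    ext <;> simp
  rw [e]
  exact h3

/-- the derivative of the components -/
theorem WSD_comp (hWHO : WHO_stmt) (m : ℕ) (hγ : DifferentiableOn ℂ γ (ball 0 1)) {p : ℂ × ℂ} (hp : ‖p.1‖ < 1) (i : Fin 3) :
    HasFDerivAt (fun q => It f m (gp ι c κ γ q) i)
      ((ContinuousLinearMap.proj i).comp (fderiv ℂ (fun q => It f m (gp ι c κ γ q)) p)) p := by
  have h1 := ((hWHO d f ι c κ γ m hγ).1 p hp).differentiableAt.hasFDerivAt
  exact (ContinuousLinearMap.proj (R := ℂ) (φ := fun _ : Fin 3 => ℂ) i).hasFDerivAt.comp p h1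

theorem WSD_deriv (hWHO : WHO_stmt) (m : ℕ) (hγ : DifferentiableOn ℂ γ (ball 0 1)) {ξ0 v : ℂ} {ρ : ℝ} {x : ℂ}
    (hp : ‖ξ0 + ((4 * ρ : ℝ) : ℂ) * x‖ < 1) (i : Fin 3) :
    HasDerivAt (fun x : ℂ => It f m (gp ι c κ γ (ξ0 + ((4 * ρ : ℝ) : ℂ) * x, v)) i)
      (((4 * ρ : ℝ) : ℂ) * fderiv ℂ (fun q => It f m (gp ι c κ γ q) i) (ξ0 + ((4 * ρ : ℝ) : ℂ) * x, v) (1, 0)) x := by
  have h1 := WSD_comp (f := f) (ι := ι) (c := c) (κ := κ) hWHO m hγ (p := (ξ0 + ((4 * ρ : ℝ) : ℂ) * x, v)) hp i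
  have h2 := h1.differentiableAt.hasFDerivAt.comp_hasDerivAt x (WSD_path ξ0 v ρ x)
  rw [map_smul, smul_eq_mul] at h2
  exact h2

/-- the spherical derivative -/
theorem WSD_sph (hWHO : WHO_stmt) (m : ℕ) (hd : 2 ≤ d) (hγ : DifferentiableOn ℂ γ (ball 0 1)) {ξ0 v : ℂ} {ρ : ℝ} {x : ℂ}
    (hp : ‖ξ0 + ((4 * ρ : ℝ) : ℂ) * x‖ < 1) :
    P2I.sph (fun x => gP f m ι c κ γ (ξ0 + ((4 * ρ : ℝ) : ℂ) * x, v)) (fun x => gQ f m ι c κ γ (ξ0 + ((4 * ρ : ℝ) : ℂ) * x, v)) x =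
      16 * ρ ^ 2 * (Complex.normSq (w1 (gP f m ι c κ γ) (gQ f m ι c κ γ) (ξ0 + ((4 * ρ : ℝ) : ℂ) * x, v)) *
        om (gP f m ι c κ γ) (gQ f m ι c κ γ) (ξ0 + ((4 * ρ : ℝ) : ℂ) * x, v)) := by
  have h0 := (WSD_deriv (f := f) (ι := ι) (c := c) (κ := κ) (v := v) hWHO m hγ hp 0).deriv
  have h1 := (WSD_deriv (f := f) (ι := ι) (c := c) (κ := κ) (v := v) hWHO m hγ hp 1).deriv
  have e0 : deriv (fun x => gP f m ι c κ γ (ξ0 + ((4 * ρ : ℝ) : ℂ) * x, v)) x =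
      ((4 * ρ : ℝ) : ℂ) * fderiv ℂ (gP f m ι c κ γ) (ξ0 + ((4 * ρ : ℝ) : ℂ) * x, v) (1, 0) := h0
  have e1 : deriv (fun x => gQ f m ι c κ γ (ξ0 + ((4 * ρ : ℝ) : ℂ) * x, v)) x =
      ((4 * ρ : ℝ) : ℂ) * fderiv ℂ (gQ f m ι c κ γ) (ξ0 + ((4 * ρ : ℝ) : ℂ) * x, v) (1, 0) := h1
  unfold P2I.sph P2I.Wr om w1
  rw [e0, e1]
  have e2 : ∀ a b A B : ℂ, a * (((4 * ρ : ℝ) : ℂ) * A) - b * (((4 * ρ : ℝ) : ℂ) * B) = ((4 * ρ : ℝ) : ℂ) * (a * A - b * B) :=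
    fun a b A B => by ring
  rw [e2, Complex.normSq_mul, Complex.normSq_ofReal]
  ring

/-- lower bound for the derivative of `f^m` -/
theorem WSD_Af (hWHO : WHO_stmt) (hWC : WC f U τ κ C0 α) (hTb : Tb U τ ι c κ γ) (m : ℕ) {p : ℂ × ℂ} (hp : p ∈ P2U.TB 1 τ) :
    Complex.normSq (w1 (gP f m ι c κ γ) (gQ f m ι c κ γ) p) * om (gP f m ι c κ γ) (gQ f m ι c κ γ) p ≤
      C0 ^ 2 * Af f m ι c κ γ p (1, 0) := by
  obtain ⟨hpq, hnq, -, -⟩ := hWC.nz ι c γ hTb m p hp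
  have c0 : fderiv ℂ (gP f m ι c κ γ) p (1, 0) = fderiv ℂ (fun q => It f m (gp ι c κ γ q)) p (1, 0) 0 := by
    have h := (WSD_comp (f := f) (ι := ι) (c := c) (κ := κ) hWHO m hTb.hd (p := p) hp.1 0).fderiv
    have h' : fderiv ℂ (gP f m ι c κ γ) p = (ContinuousLinearMap.proj (0 : Fin 3)).comp
      (fderiv ℂ (fun q => It f m (gp ι c κ γ q)) p) := h
    rw [h']
    rfl
  have c1 : fderiv ℂ (gQ f m ι c κ γ) p (1, 0) = fderiv ℂ (fun q => It f m (gp ι c κ γ q)) p (1, 0) 1 := by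
    have h := (WSD_comp (f := f) (ι := ι) (c := c) (κ := κ) hWHO m hTb.hd (p := p) hp.1 1).fderiv
    have h' : fderiv ℂ (gQ f m ι c κ γ) p = (ContinuousLinearMap.proj (1 : Fin 3)).comp
      (fderiv ℂ (fun q => It f m (gp ι c κ γ q)) p) := h
    rw [h']
    rfl
  set G := It f m (gp ι c κ γ p) with hG
  set G' := fderiv ℂ (fun q => It f m (gp ι c κ γ q)) p (1, 0) with hG'
  have hw : w1 (gP f m ι c κ γ) (gQ f m ι c κ γ) p = - crs G G' 2 := by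
    unfold w1 crs
    rw [c0, c1]
    show G 1 * G' 0 - G 0 * G' 1 = - (G 0 * G' 1 - G 1 * G' 0)
    ring
  have hle : Complex.normSq (w1 (gP f m ι c κ γ) (gQ f m ι c κ γ) p) ≤ nq (crs G G') := by
    rw [hw, Complex.normSq_neg]
    unfold nq
    exact Finset.single_le_sum (f := fun i => Complex.normSq (crs G G' i)) (fun i _ => Complex.normSq_nonneg _) (Finset.mem_univ 2)
  have hAf : Af f m ι c κ γ p (1, 0) = nq (crs G G') / nq G ^ 2 := rfl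
  have hom : om (gP f m ι c κ γ) (gQ f m ι c κ γ) p = (pq G ^ 2)⁻¹ := rfl
  have hC0 : 0 < C0 := lt_of_lt_of_le one_pos hWC.c1
  have hnqpos : 0 < nq G := by
    have : pq G ≤ nq G := by
      unfold pq nq
      rw [Fin.sum_univ_three]
      have := Complex.normSq_nonneg (G 2)
      linarith
    linarith
  rw [hAf, hom, ← div_eq_mul_inv, mul_div_assoc', div_le_div_iff₀ (by positivity) (by positivity)]
  have h5 : nq G ^ 2 ≤ C0 ^ 2 * pq G ^ 2 := by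
    rw [← mul_pow]
    exact pow_le_pow_left₀ hnqpos.le hnq 2
  have h6 : 0 ≤ Complex.normSq (w1 (gP f m ι c κ γ) (gQ f m ι c κ γ) p) := Complex.normSq_nonneg _
  calc Complex.normSq (w1 (gP f m ι c κ γ) (gQ f m ι c κ γ) p) * nq G ^ 2
      ≤ nq (crs G G') * (C0 ^ 2 * pq G ^ 2) := by gcongr; exact h6.trans hle
    _ = C0 ^ 2 * nq (crs G G') * pq G ^ 2 := by ring

end

/-- choice of the parameters -/
theorem WSD_par (C0 C2 μ0 α : ℝ) (hC0 : 1 ≤ C0) (hC2 : 0 < C2) (hμ : 0 < μ0) (hα : 0 < α) : ∃ (m1 : ℕ) (s1 : ℝ), 0 < s1 ∧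
    ∀ (d m N : ℕ), 2 ≤ d → m1 ≤ m → m ≤ N → 4 ≤ (d : ℝ) ^ m * μ0 ∧ (256 * C0 ^ 2) ^ 6 ≤ (d : ℝ) ^ m ∧
      ∀ t : ℝ, 0 ≤ t → t < s1 → C2 * (1 / (d : ℝ) ^ m + 1 / (d : ℝ) ^ N + t ^ α) ≤ μ0 / 2 := by
  obtain ⟨n1, hn1⟩ := pow_unbounded_of_one_lt (max (max (4 / μ0) ((256 * C0 ^ 2) ^ 6)) (8 * C2 / μ0)) (one_lt_two (α := ℝ))
  refine ⟨n1, (μ0 / (4 * C2)) ^ (1 / α), by positivity, ?_⟩
  intro d m N hd hm hN
  have h1 : (2 : ℝ) ^ n1 ≤ (d : ℝ) ^ m := by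
    calc (2 : ℝ) ^ n1 ≤ 2 ^ m := pow_le_pow_right₀ (by norm_num) hm
      _ ≤ (d : ℝ) ^ m := by
        have : (2 : ℝ) ≤ d := by exact_mod_cast hd
        gcongr
  have hD : max (max (4 / μ0) ((256 * C0 ^ 2) ^ 6)) (8 * C2 / μ0) ≤ (d : ℝ) ^ m := hn1.le.trans h1
  have hD1 := (le_max_left _ _).trans ((le_max_left _ _).trans hD)
  have hD2 := (le_max_right _ _).trans ((le_max_left _ _).trans hD)
  have hD3 := (le_max_right _ _).trans hD
  have hDpos : 0 < (d : ℝ) ^ m := lt_of_lt_of_le (by positivity) h1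
  refine ⟨?_, hD2, ?_⟩
  · rw [div_le_iff₀ hμ] at hD1
    exact hD1
  · intro t ht hts
    have h2 : 1 / (d : ℝ) ^ N ≤ 1 / (d : ℝ) ^ m := by
      apply one_div_le_one_div_of_le hDpos
      exact pow_le_pow_right₀ (by exact_mod_cast (by omega : 1 ≤ d)) hN
    have h3 : C2 * (1 / (d : ℝ) ^ m) ≤ μ0 / 8 := by
      rw [div_le_iff₀ hμ] at hD3
      rw [mul_one_div, div_le_iff₀ hDpos]
      linarith
    have h4 : t ^ α ≤ μ0 / (4 * C2) := by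
      calc t ^ α ≤ ((μ0 / (4 * C2)) ^ (1 / α)) ^ α := Real.rpow_le_rpow ht hts.le hα.le
        _ = μ0 / (4 * C2) := by
          rw [← Real.rpow_mul (by positivity), one_div_mul_cancel hα.ne', Real.rpow_one]
    have h5 : C2 * t ^ α ≤ μ0 / 4 := by
      calc C2 * t ^ α ≤ C2 * (μ0 / (4 * C2)) := by gcongr
        _ = μ0 / 4 := by field_simp
    have h6 : C2 * (1 / (d : ℝ) ^ N) ≤ C2 * (1 / (d : ℝ) ^ m) := by gcongr
    nlinarith

/-- `h` is small -/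
theorem WSD_h {C0 h D : ℝ} (hC0 : 1 ≤ C0) (hh : 0 < h) (hD : (256 * C0 ^ 2) ^ 6 ≤ D) (h5 : h⁻¹ ^ 5 ≤ D) (h6 : D ≤ h⁻¹ ^ 6) :
    0 < 16 * C0 * h ∧ 16 * C0 * h ≤ 1 / 16 ∧ Real.log (1 / (16 * C0 * h)) ≤ C0 * D ∧
      0 < Real.log (1 / h) ∧ Real.log (1 / h) / 2 ≤ Real.log (1 / (16 * C0 * h)) := by
  have hC0' : 0 < C0 := by linarith
  have hs : h ≤ 1 / (256 * C0 ^ 2) := by
    by_contra hcon
    rw [not_le, div_lt_iff₀ (by positivity)] at hcon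
    have h1 : (h * (256 * C0 ^ 2)) ^ 6 ≤ 1 := by
      have h2 : (256 * C0 ^ 2) ^ 6 ≤ h⁻¹ ^ 6 := hD.trans h6
      calc (h * (256 * C0 ^ 2)) ^ 6 = h ^ 6 * (256 * C0 ^ 2) ^ 6 := by ring
        _ ≤ h ^ 6 * h⁻¹ ^ 6 := by gcongr
        _ = 1 := by rw [← mul_pow, mul_inv_cancel₀ hh.ne', one_pow]
    have h3 : 1 < (h * (256 * C0 ^ 2)) ^ 6 := one_lt_pow₀ hcon (by norm_num)
    linarith
  have hs2 : h * (256 * C0 ^ 2) ≤ 1 := by
    rwa [le_div_iff₀ (by positivity)] at hs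
  have hη : 16 * C0 * h ≤ 1 / 16 := by
    have : 16 * C0 * h * 16 ≤ h * (256 * C0 ^ 2) := by nlinarith [mul_pos hC0' hh]
    linarith
  have hh1 : h < 1 := by nlinarith [mul_pos hC0' hh]
  have hηpos : 0 < 16 * C0 * h := by positivity
  have hlogh : 0 < Real.log (1 / h) := Real.log_pos (by rw [lt_div_iff₀ hh]; linarith)
  refine ⟨hηpos, hη, ?_, hlogh, ?_⟩
  · have e1 : Real.log (1 / (16 * C0 * h)) ≤ Real.log (1 / h) := by
      apply Real.log_le_log (by positivity)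
      apply one_div_le_one_div_of_le hh
      nlinarith
    have e2 : Real.log (1 / h) ≤ 1 / h := by
      have := Real.log_le_sub_one_of_pos (show 0 < 1 / h by positivity)
      linarith
    have e3 : 1 / h ≤ h⁻¹ ^ 5 := by
      rw [one_div]
      have : 1 ≤ h⁻¹ := by rw [one_le_inv₀ hh]; exact hh1.le
      exact le_self_pow₀ this (by norm_num)
    have hDpos : 0 < D := lt_of_lt_of_le (by positivity) hD
    nlinarith
  · have e4 : (16 * C0 * h) ^ 2 ≤ h := by nlinarith [mul_pos hC0' hh]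
    have e5 : Real.log ((16 * C0 * h) ^ 2) ≤ Real.log h := Real.log_le_log (by positivity) e4
    rw [Real.log_pow] at e5
    rw [one_div, Real.log_inv, one_div, Real.log_inv]
    push_cast at e5
    linarith

theorem WSD (hIS3 : P2I.IS3_stmt) (hWHO : WHO_stmt) (hWM1 : WM1_stmt) (hWM2 : WM2_stmt) : WSD_stmt := by
  intro d f U hd τ κ C0 α hτ hκ hκ1 hWC
  obtain ⟨C3, hC3, hI⟩ := hIS3
  obtain ⟨C2, hC2, hW2⟩ := hWM2 d f U hd τ κ C0 α hτ hκ hκ1 hWC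
  have hC0 := hWC.c1
  have hC0' : 0 < C0 := by linarith
  refine ⟨C3 * (1 + C0) * C0 * 2, by positivity, ?_⟩
  intro ρ μ0 hρ hρ1 hμ
  obtain ⟨m1, s1, hs1, hpar⟩ := WSD_par C0 C2 μ0 α hC0 hC2 hμ hWC.a0
  refine ⟨m1, s1, hs1, ?_⟩
  intro m n N h hm hmn hmN hh h5 h6 ι c γ ξ0 v hTb hξ0 hms hvs hvτ
  obtain ⟨p1, p2, p3⟩ := hpar d m N hd hm hmN
  obtain ⟨q1, q2, q3, q4, q5⟩ := WSD_h hC0 hh p2 h5 h6
  set D : ℝ := (d : ℝ) ^ m with hDdef
  have hd0 : (0 : ℝ) < d := by exact_mod_cast (by omega : 0 < d)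
  have hDpos : 0 < D := by positivity
  have hD1 : 1 ≤ D := one_le_pow₀ (by exact_mod_cast (by omega : 1 ≤ d))
  set η : ℝ := 16 * C0 * h with hη
  have hvb : v ∈ ball (0 : ℂ) τ := by rw [mem_ball_zero_iff]; exact hvτ
  have hTB : ∀ x ∈ ball (0 : ℂ) 1, (ξ0 + ((4 * ρ : ℝ) : ℂ) * x, v) ∈ P2U.TB 1 τ := fun x hx =>
    ⟨by have := WSD_aff hξ0 hρ hρ1 hx; rwa [mem_ball_zero_iff] at this, hvτ⟩
  have hlt : ∀ x ∈ ball (0 : ℂ) 1, ‖ξ0 + ((4 * ρ : ℝ) : ℂ) * x‖ < 1 := fun x hx => (hTB x hx).1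
  obtain ⟨hn1, -, hncont, hnpos⟩ := hWM1 d f U hd τ κ C0 α hτ hκ hκ1 hWC ι c γ hTb n
  obtain ⟨-, -, hmcont, hmpos⟩ := hWM1 d f U hd τ κ C0 α hτ hκ hκ1 hWC ι c γ hTb m
  obtain ⟨hnlap, hnsm, -⟩ := hn1 v hvb
  set P : ℂ → ℂ := fun x => gP f m ι c κ γ (ξ0 + ((4 * ρ : ℝ) : ℂ) * x, v) with hP
  set Q : ℂ → ℂ := fun x => gQ f m ι c κ γ (ξ0 + ((4 * ρ : ℝ) : ℂ) * x, v) with hQ
  set V : ℂ → ℝ := fun x => D * un f n (gp ι c κ γ (ξ0 + ((4 * ρ : ℝ) : ℂ) * x, v)) with hV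
  -- hypotheses of IS3
  have hAdm : P2I.Adm P Q := by
    refine ⟨fun x hx => ?_, fun x hx => ?_, fun x hx => ?_⟩
    · exact (WSD_deriv (f := f) (ι := ι) (c := c) (κ := κ) (v := v) hWHO m hTb.hd (hlt x hx) 0).differentiableAt.differentiableWithinAt
    · exact (WSD_deriv (f := f) (ι := ι) (c := c) (κ := κ) (v := v) hWHO m hTb.hd (hlt x hx) 1).differentiableAt.differentiableWithinAt
    · have h1 := (hWC.nz ι c γ hTb m _ (hTB x hx)).1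
      by_contra hcon
      push Not at hcon
      obtain ⟨c1, c2⟩ := hcon
      have e1 : It f m (gp ι c κ γ (ξ0 + ((4 * ρ : ℝ) : ℂ) * x, v)) 0 = 0 := c1
      have e2 : It f m (gp ι c κ γ (ξ0 + ((4 * ρ : ℝ) : ℂ) * x, v)) 1 = 0 := c2
      unfold pq at h1
      rw [e1, e2] at h1
      simp at h1
  have hUpeq : ∀ x : ℂ, P2I.Up P Q x = D * un f m (gp ι c κ γ (ξ0 + ((4 * ρ : ℝ) : ℂ) * x, v)) := by
    intro x
    unfold P2I.Up un pq
    rw [← hDdef, mul_div_cancel₀ _ hDpos.ne']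
    rfl
  have hE1 : 1 ≤ C0 * D := by nlinarith
  have hUp : ∀ x ∈ ball (0 : ℂ) 1, |P2I.Up P Q x| ≤ C0 * D := by
    intro x hx
    have h1 := (hWC.nz ι c γ hTb m _ (hTB x hx)).2.2.2
    rw [hUpeq, abs_mul, abs_of_pos hDpos, mul_comm C0]
    gcongr
  have hVU : ∀ x ∈ ball (0 : ℂ) 1, |V x - P2I.Up P Q x| ≤ C0 := by
    intro x hx
    have h1 := hWC.lv ι c γ hTb m n hmn _ (hTB x hx)
    rw [hUpeq, hV]
    simp only
    rw [← mul_sub, abs_mul, abs_of_pos hDpos]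
    calc D * |un f n (gp ι c κ γ (ξ0 + ((4 * ρ : ℝ) : ℂ) * x, v)) - un f m (gp ι c κ γ (ξ0 + ((4 * ρ : ℝ) : ℂ) * x, v))|
        ≤ D * (C0 / D) := by gcongr
      _ = C0 := by field_simp
  have hmaps : MapsTo (fun x : ℂ => ξ0 + ((4 * ρ : ℝ) : ℂ) * x) (ball 0 1) (ball 0 1) := fun x hx => WSD_aff hξ0 hρ hρ1 hx
  have haff : ContDiff ℝ ∞ (fun x : ℂ => ξ0 + ((4 * ρ : ℝ) : ℂ) * x) := by fun_prop
  have hVs : ContDiffOn ℝ ∞ V (ball 0 1) :=
    contDiffOn_const.mul (hnsm.comp haff.contDiffOn hmaps)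
  have hVlap : ∀ x ∈ ball (0 : ℂ) 1, lap V x = D * (4 * ρ) ^ 2 * gt f n ι c κ γ (ξ0 + ((4 * ρ : ℝ) : ℂ) * x, v) := by
    intro x hx
    have h1 : ContDiffAt ℝ 2 (fun ξ => un f n (gp ι c κ γ (ξ, v))) (ξ0 + ((4 * ρ : ℝ) : ℂ) * x) :=
      (hnsm.contDiffAt (isOpen_ball.mem_nhds (hmaps hx))).of_le ENat.LEInfty.out
    have h2 := WSD_lap (fun ξ => un f n (gp ι c κ γ (ξ, v))) ξ0 (4 * ρ) D x h1
    rw [← hnlap _ (hmaps hx)] at h2
    exact h2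
  have hVnn : ∀ x ∈ ball (0 : ℂ) 1, 0 ≤ lap V x := by
    intro x hx
    rw [hVlap x hx]
    have := hnpos (ξ0 + ((4 * ρ : ℝ) : ℂ) * x, v)
    positivity
  have hsph : ∀ x ∈ ball (0 : ℂ) 1, P2I.sph P Q x = 2 * D * ((4 * ρ) ^ 2 * gt f m ι c κ γ (ξ0 + ((4 * ρ : ℝ) : ℂ) * x, v)) := by
    intro x hx
    have h1 := WSD_sph (f := f) (ι := ι) (c := c) (κ := κ) (v := v) hWHO m hd hTb.hd (hlt x hx)
    have h2 : gt f m ι c κ γ (ξ0 + ((4 * ρ : ℝ) : ℂ) * x, v) =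
        (1 / 2) * Complex.normSq (w1 (gP f m ι c κ γ) (gQ f m ι c κ γ) (ξ0 + ((4 * ρ : ℝ) : ℂ) * x, v)) *
          om (gP f m ι c κ γ) (gQ f m ι c κ γ) (ξ0 + ((4 * ρ : ℝ) : ℂ) * x, v) / D := rfl
    rw [h1, h2]
    field_simp
    ring
  -- continuity
  have hpath : ContinuousOn (fun x : ℂ => (ξ0 + ((4 * ρ : ℝ) : ℂ) * x, v)) (ball 0 1) := by fun_prop
  have hgm : ContinuousOn (fun x : ℂ => gt f m ι c κ γ (ξ0 + ((4 * ρ : ℝ) : ℂ) * x, v)) (ball 0 1) :=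
    hmcont.comp hpath fun x hx => hTB x hx
  have hgn : ContinuousOn (fun x : ℂ => gt f n ι c κ γ (ξ0 + ((4 * ρ : ℝ) : ℂ) * x, v)) (ball 0 1) :=
    hncont.comp hpath fun x hx => hTB x hx
  have hsphc : ContinuousOn (P2I.sph P Q) (ball 0 1) := by
    have : ContinuousOn (fun x => 2 * D * ((4 * ρ) ^ 2 * gt f m ι c κ γ (ξ0 + ((4 * ρ : ℝ) : ℂ) * x, v))) (ball 0 1) :=
      continuousOn_const.mul (continuousOn_const.mul hgm)
    exact this.congr hsph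
  have hlapc : ContinuousOn (lap V) (ball 0 1) := by
    have : ContinuousOn (fun x => D * (4 * ρ) ^ 2 * gt f n ι c κ γ (ξ0 + ((4 * ρ : ℝ) : ℂ) * x, v)) (ball 0 1) :=
      continuousOn_const.mul hgn
    exact this.congr hVlap
  have hint : ∀ (F : ℂ → ℝ) (r : ℝ), r < 1 → ContinuousOn F (ball 0 1) → IntegrableOn F (ball 0 r) := by
    intro F r hr hF
    have h1 : IntegrableOn F (closedBall 0 r) :=
      (hF.mono (closedBall_subset_ball hr)).integrableOn_compact (isCompact_closedBall _ _)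
    exact h1.mono_set ball_subset_closedBall
  -- mass of level m
  have hmass : ENNReal.ofReal (μ0 / 2) ≤ ms f m ι c κ γ v (ball ξ0 (2 * ρ)) := by
    have h0τ : ‖(0 : ℂ)‖ < τ := by rw [norm_zero]; exact hτ
    have h1 := ((hW2 ι c γ hTb m N 0 v h0τ hvτ).1 ξ0 ρ (by linarith) hρ (by linarith)).2
    have h2 : C2 * (1 / (d : ℝ) ^ m + 1 / (d : ℝ) ^ N + ‖0 - v‖ ^ α) ≤ μ0 / 2 := by
      rw [zero_sub, norm_neg]
      exact p3 ‖v‖ (norm_nonneg _) hvs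
    have h3 : ENNReal.ofReal μ0 ≤ ms f m ι c κ γ v (ball ξ0 (2 * ρ)) + ENNReal.ofReal (μ0 / 2) :=
      hms.trans (h1.trans (by gcongr))
    have h4 : ENNReal.ofReal μ0 = ENNReal.ofReal (μ0 / 2) + ENNReal.ofReal (μ0 / 2) := by
      rw [← ENNReal.ofReal_add (by positivity) (by positivity)]
      congr 1
      ring
    rw [h4] at h3
    exact (ENNReal.add_le_add_iff_right ENNReal.ofReal_ne_top).1 h3
  have hball : {z : ℂ | ξ0 + ((4 * ρ : ℝ) : ℂ) * z ∈ ball ξ0 (2 * ρ)} = ball (0 : ℂ) (1 / 2) := by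
    ext z
    rw [Set.mem_ofPred_eq, mem_ball, dist_eq_norm, add_sub_cancel_left, norm_mul, Complex.norm_real, Real.norm_eq_abs,
      abs_of_pos (by positivity), mem_ball_zero_iff]
    constructor
    · intro h
      nlinarith
    · intro h
      nlinarith
  have h4 : 4 ≤ ∫ x in ball (0 : ℂ) (1 / 2), P2I.sph P Q x := by
    have hnn : ∀ x, 0 ≤ P2I.sph P Q x := fun x => div_nonneg (Complex.normSq_nonneg _) (sq_nonneg _)
    have h1 := ofReal_integral_eq_lintegral_ofReal (hint _ (1 / 2) (by norm_num) hsphc)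
      (ae_of_all _ hnn)
    have h2 : ∫⁻ x in ball (0 : ℂ) (1 / 2), ENNReal.ofReal (P2I.sph P Q x) =
        ENNReal.ofReal (2 * D) * ms f m ι c κ γ v (ball ξ0 (2 * ρ)) := by
      unfold ms
      rw [WSD_scale_set (fun ξ => ENNReal.ofReal (gt f m ι c κ γ (ξ, v))) _ measurableSet_ball ξ0
        (show 0 < 4 * ρ by positivity), hball, ← mul_assoc,
        ← ENNReal.ofReal_mul (by positivity), ← lintegral_const_mul' _ _ ENNReal.ofReal_ne_top]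
      refine setLIntegral_congr_fun measurableSet_ball fun x hx => ?_
      have hx1 : x ∈ ball (0 : ℂ) 1 := ball_subset_ball (by norm_num) hx
      rw [hsph x hx1, ← ENNReal.ofReal_mul (by positivity)]
      congr 1
      ring
    have h3 : ENNReal.ofReal 4 ≤ ENNReal.ofReal (∫ x in ball (0 : ℂ) (1 / 2), P2I.sph P Q x) := by
      rw [h1, h2]
      calc ENNReal.ofReal 4 ≤ ENNReal.ofReal (2 * D * (μ0 / 2)) := by
            apply ENNReal.ofReal_le_ofReal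
            nlinarith
        _ = ENNReal.ofReal (2 * D) * ENNReal.ofReal (μ0 / 2) := ENNReal.ofReal_mul (by positivity)
        _ ≤ _ := by gcongr
    exact (ENNReal.ofReal_le_ofReal_iff (integral_nonneg hnn)).1 h3
  have hIS := hI P Q V (C0 * D) C0 η hAdm hE1 hUp h4 hVs hVnn hC0'.le hVU q1 q2 q3
  -- the set
  set X : Set ℂ := ball (0 : ℂ) (3 / 4) ∩ {z | P2I.sph P Q z ≤ η * (C0 * D)} with hX
  have hXm : MeasurableSet X := by
    have h1 : IsClosed (closedBall (0 : ℂ) (3 / 4) ∩ P2I.sph P Q ⁻¹' Iic (η * (C0 * D))) :=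
      (hsphc.mono (closedBall_subset_ball (by norm_num))).preimage_isClosed_of_isClosed isClosed_closedBall isClosed_Iic
    have h2 : X = ball (0 : ℂ) (3 / 4) ∩ (closedBall (0 : ℂ) (3 / 4) ∩ P2I.sph P Q ⁻¹' Iic (η * (C0 * D))) := by
      ext z
      simp only [hX, mem_inter_iff, Set.mem_ofPred_eq, mem_preimage, mem_Iic]
      constructor
      · rintro ⟨a1, a2⟩
        exact ⟨a1, ball_subset_closedBall a1, a2⟩
      · rintro ⟨a1, -, a2⟩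
        exact ⟨a1, a2⟩
    rw [h2]
    exact measurableSet_ball.inter h1.measurableSet
  have hXb : X ⊆ ball (0 : ℂ) 1 := fun x hx => ball_subset_ball (by norm_num) hx.1
  have hXint : IntegrableOn (lap V) X := (hint _ (3 / 4) (by norm_num) hlapc).mono_set inter_subset_left
  have hXnn : 0 ≤ᵐ[volume.restrict X] lap V := by
    rw [Filter.EventuallyLE, ae_restrict_iff' hXm]
    exact ae_of_all _ fun x hx => hVnn x (hXb hx)
  have hofR := ofReal_integral_eq_lintegral_ofReal hXint hXnn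
  -- conclusion
  have hkey : ms f n ι c κ γ v {ξ | ‖ξ - ξ0‖ < 2 * ρ ∧ ρ ^ 2 * Af f m ι c κ γ (ξ, v) (1, 0) ≤ h * D} ≤
      ENNReal.ofReal (D⁻¹) * ∫⁻ x in X, ENNReal.ofReal (lap V x) := by
    set S : Set ℂ := {ξ | ‖ξ - ξ0‖ < 2 * ρ ∧ ρ ^ 2 * Af f m ι c κ γ (ξ, v) (1, 0) ≤ h * D} with hS
    set S' : Set ℂ := (fun x : ℂ => ξ0 + ((4 * ρ : ℝ) : ℂ) * x) '' X with hS'
    have hSS : S ⊆ S' := by
      rintro ξ ⟨a1, a2⟩
      have hρ0 : ((4 * ρ : ℝ) : ℂ) ≠ 0 := by exact_mod_cast (by positivity : (4 * ρ : ℝ) ≠ 0)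
      have hξe : ξ0 + ((4 * ρ : ℝ) : ℂ) * ((ξ - ξ0) / ((4 * ρ : ℝ) : ℂ)) = ξ := by
        field_simp
        ring
      have hxn : ‖(ξ - ξ0) / ((4 * ρ : ℝ) : ℂ)‖ < 1 / 2 := by
        rw [norm_div, Complex.norm_real, Real.norm_eq_abs, abs_of_pos (by positivity), div_lt_iff₀ (by positivity)]
        linarith
      refine ⟨(ξ - ξ0) / ((4 * ρ : ℝ) : ℂ), ⟨?_, ?_⟩, hξe⟩
      · rw [mem_ball_zero_iff]
        linarith
      · have hx1 : (ξ - ξ0) / ((4 * ρ : ℝ) : ℂ) ∈ ball (0 : ℂ) 1 := by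
          rw [mem_ball_zero_iff]
          linarith
        have h1 := WSD_sph (f := f) (ι := ι) (c := c) (κ := κ) (v := v) hWHO m hd hTb.hd (hlt _ hx1)
        have h2 := WSD_Af (f := f) hWHO hWC hTb m (hTB _ hx1)
        rw [hξe] at h1 h2
        rw [Set.mem_ofPred_eq]
        have h3 : P2I.sph P Q ((ξ - ξ0) / ((4 * ρ : ℝ) : ℂ)) =
          16 * ρ ^ 2 * (Complex.normSq (w1 (gP f m ι c κ γ) (gQ f m ι c κ γ) (ξ, v)) * om (gP f m ι c κ γ) (gQ f m ι c κ γ) (ξ, v)) := h1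
        rw [h3]
        calc 16 * ρ ^ 2 * (Complex.normSq (w1 (gP f m ι c κ γ) (gQ f m ι c κ γ) (ξ, v)) * om (gP f m ι c κ γ) (gQ f m ι c κ γ) (ξ, v))
            ≤ 16 * ρ ^ 2 * (C0 ^ 2 * Af f m ι c κ γ (ξ, v) (1, 0)) := by gcongr
          _ = 16 * C0 ^ 2 * (ρ ^ 2 * Af f m ι c κ γ (ξ, v) (1, 0)) := by ring
          _ ≤ 16 * C0 ^ 2 * (h * D) := by gcongr
          _ = η * (C0 * D) := by rw [hη]; ring
    have hemb : MeasurableEmbedding (fun x : ℂ => ξ0 + ((4 * ρ : ℝ) : ℂ) * x) := by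
      have h1 : MeasurableEmbedding (fun z : ℂ => (4 * ρ) • z) :=
        (Homeomorph.smulOfNeZero (4 * ρ) (by positivity)).measurableEmbedding
      have h2 : MeasurableEmbedding (fun z : ℂ => ξ0 + z) := measurableEmbedding_addLeft ξ0
      have h3 := h2.comp h1
      have e : (fun x : ℂ => ξ0 + ((4 * ρ : ℝ) : ℂ) * x) = (fun z : ℂ => ξ0 + z) ∘ fun z : ℂ => (4 * ρ) • z := by
        funext x
        simp only [Function.comp_apply, Complex.real_smul]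
      rw [e]
      exact h3
    have hS'm : MeasurableSet S' := hemb.measurableSet_image.2 hXm
    have hpre : {z : ℂ | ξ0 + ((4 * ρ : ℝ) : ℂ) * z ∈ S'} = X := by
      ext z
      rw [Set.mem_ofPred_eq]
      exact hemb.injective.mem_set_image
    unfold ms
    calc ∫⁻ ξ in S, ENNReal.ofReal (gt f n ι c κ γ (ξ, v)) ≤ ∫⁻ ξ in S', ENNReal.ofReal (gt f n ι c κ γ (ξ, v)) :=
          lintegral_mono_set hSS
      _ = ENNReal.ofReal ((4 * ρ) ^ 2) * ∫⁻ z in X, ENNReal.ofReal (gt f n ι c κ γ (ξ0 + ((4 * ρ : ℝ) : ℂ) * z, v)) := by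
          rw [WSD_scale_set _ _ hS'm ξ0 (show 0 < 4 * ρ by positivity), hpre]
      _ = ENNReal.ofReal (D⁻¹) * ∫⁻ x in X, ENNReal.ofReal (lap V x) := by
          rw [← lintegral_const_mul' _ _ ENNReal.ofReal_ne_top, ← lintegral_const_mul' _ _ ENNReal.ofReal_ne_top]
          refine setLIntegral_congr_fun hXm fun x hx => ?_
          rw [hVlap x (hXb hx), ← ENNReal.ofReal_mul (by positivity), ← ENNReal.ofReal_mul (by positivity)]
          congr 1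
          field_simp
  refine hkey.trans ?_
  rw [← hofR, ← ENNReal.ofReal_mul (by positivity)]
  apply ENNReal.ofReal_le_ofReal
  have hlogη : 0 < Real.log (1 / η) := by linarith
  calc D⁻¹ * ∫ x in X, lap V x ≤ D⁻¹ * (C3 * (1 + C0) * (C0 * D) / Real.log (1 / η)) := by gcongr
    _ = C3 * (1 + C0) * C0 / Real.log (1 / η) := by field_simp
    _ ≤ C3 * (1 + C0) * C0 / (Real.log (1 / h) / 2) := by gcongr
    _ = C3 * (1 + C0) * C0 * 2 / Real.log (1 / h) := by field_simp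

end Pool.Agent.P2W
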